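import Pool.Agent.W317.DR.Stm

/-!
Extension by new vertices and the flex phase.
-/

set_option autoImplicit false

namespace Pool.Agent.W317.DR

variable {I : Type} [Fintype I] [DecidableEq I] {p : Par I}

/-- pairwise disjoint subsets of prescribed size -/
theorem disj_family (w : ℕ) : ∀ (n : ℕ) (W : Finset ℕ), n * w ≤ W.card →
    ∃ S : ℕ → Finset ℕ, (∀ s, s < n → (S s).card = w) ∧ (∀ s, s < n → S s ⊆ W) ∧
      (∀ s t, s < n → t < n → s ≠ t → Disjoint (S s) (S t)) := by
  intro n
  induction n with
  | zero =>
    intro W _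
    exact ⟨fun _ => ∅, fun s hs => absurd hs (Nat.not_lt_zero _),
      fun s hs => absurd hs (Nat.not_lt_zero _), fun s t hs => absurd hs (Nat.not_lt_zero _)⟩
  | succ n ih =>
    intro W hW
    have h1 : w ≤ W.card := by nlinarith
    obtain ⟨S0, hS0, hS0c⟩ := Finset.exists_subset_card_eq h1
    have h2 : n * w ≤ (W \ S0).card := by
      rw [Finset.card_sdiff_of_subset hS0, hS0c]
      have : (n + 1) * w = n * w + w := by ring
      omega
    obtain ⟨S, hS1, hS2, hS3⟩ := ih (W \ S0) h2
    refine ⟨fun s => if s = n then S0 else S s, ?_, ?_, ?_⟩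
    · intro s hs
      by_cases h : s = n
      · simp [h, hS0c]
      · simp only [h, if_false]
        exact hS1 s (by omega)
    · intro s hs
      by_cases h : s = n
      · simp [h, hS0]
      · simp only [h, if_false]
        exact (hS2 s (by omega)).trans Finset.sdiff_subset
    · intro s t hs ht hst
      by_cases h : s = n
      · have h' : t ≠ n := by omega
        simp only [h, h', if_true, if_false]
        rw [Finset.disjoint_left]
        intro v hv hv'
        exact (Finset.mem_sdiff.1 (hS2 t (by omega) hv')).2 hv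
      · by_cases h' : t = n
        · simp only [h, h', if_true, if_false]
          rw [Finset.disjoint_left]
          intro v hv hv'
          exact (Finset.mem_sdiff.1 (hS2 s (by omega) hv)).2 hv'
        · simp only [h, h', if_false]
          exact hS3 s t (by omega) (by omega) hst

theorem exists_fresh (V : Finset ℕ) (n : ℕ) : ∃ W : Finset ℕ, W.card = n ∧ Disjoint W V := by
  have h : ((Finset.range (V.card + n)) \ V).card ≥ n := by
    have h1 := Finset.le_card_sdiff V (Finset.range (V.card + n))
    rw [Finset.card_range] at h1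
    omega
  obtain ⟨W, hW, hWc⟩ := Finset.exists_subset_card_eq h
  refine ⟨W, hWc, ?_⟩
  rw [Finset.disjoint_left]
  intro v hv
  exact (Finset.mem_sdiff.1 (hW hv)).2

theorem ext : S_EXT := by
  intro I _ _ p c V
  obtain ⟨W, hW, hWV⟩ := exists_fresh (V ∪ (c.F ∪ (c.U ∪ {c.z}))) (p.r * p.w + p.w0)
  obtain ⟨S, hS1, hS2, hS3⟩ := disj_family p.w p.r W (by omega)
  rw [Finset.disjoint_union_right, Finset.disjoint_union_right, Finset.disjoint_union_right]
    at hWV
  obtain ⟨h1, h2, h3, h4⟩ := hWV
  refine ⟨{ toRC := c, W := W, S := fun s => S s.val, cW := hW, cS := fun s => hS1 s.val s.2,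
            SW := fun s => hS2 s.val s.2,
            SS := fun s t hst => hS3 s.val t.val s.2 t.2 (fun h => hst (Fin.ext h)),
            WF := h2, WX := fun i => ?_, zW := ?_ }, rfl, h1⟩
  · refine Finset.disjoint_of_subset_right ?_ h3
    intro v hv
    exact Finset.mem_biUnion.2 ⟨i, Finset.mem_univ _, hv⟩
  · intro hz
    exact Finset.disjoint_left.1 h4 hz (Finset.mem_singleton_self _)

/-- an edge of a copy whose frame is covered meets a fresh set in at most one vertex -/
theorem meet_one (c' : RC p) (N0 : Finset (Finset ℕ)) (W : Finset ℕ)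
    (hW : ∀ g ∈ N0, Disjoint W g) (hcov : ∀ v ∈ c'.F ∪ c'.U, ∃ g ∈ N0, v ∈ g)
    (x : Finset ℕ) (hx : x ∈ c'.edges) : ¬ 2 ≤ (x ∩ W).card := by
  have hsub : x ⊆ insert c'.z (c'.F ∪ c'.U) := by
    have hU : ∀ i, c'.X i ⊆ c'.U := fun i v hv => Finset.mem_biUnion.2 ⟨i, Finset.mem_univ _, hv⟩
    simp only [RC.edges, Finset.mem_insert] at hx
    rcases hx with rfl | rfl | hx
    · apply Finset.insert_subset_insert
      refine subset_trans ?_ Finset.subset_union_right
      intro v hv
      obtain ⟨i, -, hi⟩ := Finset.mem_biUnion.1 hv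
      exact hU i (Finset.mem_sdiff.1 hi).1
    · apply Finset.insert_subset_insert
      refine subset_trans ?_ Finset.subset_union_right
      intro v hv
      obtain ⟨i, -, hi⟩ := Finset.mem_biUnion.1 hv
      exact hU i (c'.TX i hi)
    · obtain ⟨j, -, rfl⟩ := Finset.mem_image.1 hx
      refine subset_trans ?_ (Finset.subset_insert _ _)
      unfold RC.core
      apply Finset.union_subset_union le_rfl
      apply Finset.union_subset
      · exact (c'.TX j).trans (hU j)
      · exact Finset.biUnion_subset.2 fun i _ => hU i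
  have h1 : x ∩ W ⊆ {c'.z} := by
    intro v hv
    obtain ⟨hv1, hv2⟩ := Finset.mem_inter.1 hv
    rcases Finset.mem_insert.1 (hsub hv1) with h | h
    · exact Finset.mem_singleton.2 h
    · obtain ⟨g, hg, hvg⟩ := hcov v h
      exact absurd hvg (Finset.disjoint_left.1 (hW g hg) hv2)
  have h2 := Finset.card_le_card h1
  rw [Finset.card_singleton] at h2
  omega

theorem flex_inter (h : HC p) (s : Fin p.r) : h.flex s ∩ h.W = h.W \ h.S s := by
  ext v
  simp only [HC.flex, Finset.mem_inter, Finset.mem_insert, Finset.mem_union, Finset.mem_sdiff]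
  constructor
  · rintro ⟨h1 | h1 | h1, h2⟩
    · subst h1; exact absurd h2 h.zW
    · exact absurd h1 (Finset.disjoint_left.1 h.WF h2)
    · exact h1
  · rintro ⟨h1, h2⟩
    exact ⟨Or.inr (Or.inr ⟨h1, h2⟩), h1⟩

theorem step2 (hC : S_CARD) (N0 : Finset (Finset ℕ)) (c : RC p) (u : ℕ)
    (A B : Finset (Finset ℕ)) (x : Finset ℕ) (hu : u < p.r) (hfl : FlexSt p N0 c u A B) :
    ∃ y : Finset ℕ, y.card = p.k ∧ y ∉ insert x A ∧ y ∉ B ∧
        FlexSt p N0 c (u + 1) (insert x A) (insert y B) := by
  classical
  obtain ⟨-, -, -, -, -, hk, -⟩ := hC I p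
  obtain ⟨h, hc, hB, hN, hcnt⟩ := hfl
  set R : Finset ℕ := h.W \ (Finset.univ.filter (fun s : Fin p.r => s.val < u)).biUnion h.S with hR
  have hRc : (p.r - u) * p.w + p.w0 ≤ R.card := by
    have h1 : ((Finset.univ.filter (fun s : Fin p.r => s.val < u)).biUnion h.S).card
        ≤ u * p.w := by
      refine (Finset.card_biUnion_le).trans ?_
      have h2 : ∀ s ∈ Finset.univ.filter (fun s : Fin p.r => s.val < u), (h.S s).card = p.w :=
        fun s _ => h.cS s
      rw [Finset.sum_congr rfl h2, Finset.sum_const, smul_eq_mul]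
      apply Nat.mul_le_mul_right
      have h3 : (Finset.univ.filter (fun s : Fin p.r => s.val < u)).card
          ≤ (Finset.range u).card := by
        apply Finset.card_le_card_of_injOn (fun s => s.val)
        · intro s hs
          simpa using hs
        · intro s _ t _ hst
          exact Fin.ext hst
      simpa using h3
    have h4 := Finset.le_card_sdiff
      ((Finset.univ.filter (fun s : Fin p.r => s.val < u)).biUnion h.S) h.W
    rw [h.cW] at h4
    have h5 : p.r * p.w = (p.r - u) * p.w + u * p.w := by
      rw [← Nat.add_mul]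
      congr 1
      omega
    rw [hR]
    omega
  have hRW : R ⊆ h.W := Finset.sdiff_subset
  have hw1 : 1 ≤ p.w := by
    have := p.w_gt
    omega
  have hr1 : 1 ≤ p.r - u := by omega
  have hRw : p.w + p.w0 ≤ R.card := by
    have : p.w ≤ (p.r - u) * p.w := Nat.le_mul_of_pos_left _ hr1
    omega
  obtain ⟨M0, hM0, hM0c⟩ := Finset.exists_subset_card_eq (s := R) (n := p.w - 1) (by omega)
  set Bad : Finset (Finset ℕ) := (insert x A ∪ B).filter (fun e => 2 ≤ (e ∩ h.W).card) with hBad
  have hBadc : Bad.card ≤ 2 * u + 1 := by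
    have h1 : Bad ⊆ insert x ((A ∪ B).filter (fun e => 2 ≤ (e ∩ h.W).card)) := by
      intro e he
      rw [hBad, Finset.mem_filter, Finset.mem_union, Finset.mem_insert] at he
      rw [Finset.mem_insert, Finset.mem_filter, Finset.mem_union]
      tauto
    exact (Finset.card_le_card h1).trans ((Finset.card_insert_le _ _).trans (by omega))
  -- the candidate edges
  let ed : Finset ℕ → Finset ℕ := fun S => insert h.z (h.F ∪ (h.W \ S))
  have hedW : ∀ S, ed S ∩ h.W = h.W \ S := by
    intro S
    ext v
    simp only [ed, Finset.mem_inter, Finset.mem_insert, Finset.mem_union, Finset.mem_sdiff]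
    constructor
    · rintro ⟨h1 | h1 | h1, h2⟩
      · subst h1; exact absurd h2 h.zW
      · exact absurd h1 (Finset.disjoint_left.1 h.WF h2)
      · exact h1
    · rintro ⟨h1, h2⟩
      exact ⟨Or.inr (Or.inr ⟨h1, h2⟩), h1⟩
  have hex : ∃ m ∈ R \ M0, ed (insert m M0) ∉ Bad := by
    by_contra hcon
    push Not at hcon
    have h1 : (R \ M0).card ≤ Bad.card := by
      apply Finset.card_le_card_of_injOn (fun m => ed (insert m M0))
      · intro m hm
        exact hcon m hm
      · intro m hm m' hm' heq
        have hm := Finset.mem_sdiff.1 (Finset.mem_coe.1 hm)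
        have hm' := Finset.mem_sdiff.1 (Finset.mem_coe.1 hm')
        have h2 : h.W \ insert m M0 = h.W \ insert m' M0 := by
          rw [← hedW, ← hedW]
          exact congrArg (· ∩ h.W) heq
        by_contra hne
        have h3 : m ∈ h.W \ insert m' M0 := by
          rw [Finset.mem_sdiff, Finset.mem_insert]
          exact ⟨hRW hm.1, by tauto⟩
        rw [← h2, Finset.mem_sdiff, Finset.mem_insert] at h3
        exact h3.2 (Or.inl rfl)
    rw [Finset.card_sdiff_of_subset hM0, hM0c] at h1
    have := p.w0_ge
    omega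
  obtain ⟨m, hm, hmB⟩ := hex
  obtain ⟨hmR, hmM⟩ := Finset.mem_sdiff.1 hm
  set S' := insert m M0 with hS'
  have hS'R : S' ⊆ R := by
    rw [hS']
    exact Finset.insert_subset hmR hM0
  have hS'c : S'.card = p.w := by
    rw [hS', Finset.card_insert_of_notMem hmM, hM0c]
    omega
  have hRS : (p.r - u - 1) * p.w ≤ (R \ S').card := by
    rw [Finset.card_sdiff_of_subset hS'R, hS'c]
    have : (p.r - u) * p.w = (p.r - u - 1) * p.w + p.w := by
      conv_lhs => rw [show p.r - u = (p.r - u - 1) + 1 by omega]
      ring
    omega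
  obtain ⟨S2, hS2c, hS2R, hS2d⟩ := disj_family p.w (p.r - u - 1) (R \ S') hRS
  let SS : Fin p.r → Finset ℕ := fun s =>
    if s.val < u then h.S s else if s.val = u then S' else S2 (s.val - u - 1)
  have hSS1 : ∀ s : Fin p.r, s.val < u → SS s = h.S s := fun s hs => by simp [SS, hs]
  have hSS2 : ∀ s : Fin p.r, s.val = u → SS s = S' := fun s hs => by
    simp [SS, hs]
  have hSS3 : ∀ s : Fin p.r, u < s.val → SS s = S2 (s.val - u - 1) := fun s hs => by
    simp [SS, show ¬ s.val < u by omega, show s.val ≠ u by omega]
  have hlt : ∀ s : Fin p.r, s.val < u → Disjoint (h.S s) R := by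
    intro s hs
    rw [Finset.disjoint_left]
    intro v hv hvR
    rw [hR, Finset.mem_sdiff] at hvR
    exact hvR.2 (Finset.mem_biUnion.2 ⟨s, by simp [hs], hv⟩)
  have hge : ∀ s : Fin p.r, u ≤ s.val → SS s ⊆ R := by
    intro s hs
    rcases hs.eq_or_lt with hs | hs
    · rw [hSS2 s hs.symm]; exact hS'R
    · rw [hSS3 s hs]
      exact (hS2R _ (by have := s.2; omega)).trans Finset.sdiff_subset
  let h' : HC p :=
    { h with
      S := SS
      cS := by
        intro s
        rcases lt_trichotomy s.val u with hs | hs | hs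
        · rw [hSS1 s hs]; exact h.cS s
        · rw [hSS2 s hs]; exact hS'c
        · rw [hSS3 s hs]; exact hS2c _ (by have := s.2; omega)
      SW := by
        intro s
        by_cases hs : s.val < u
        · rw [hSS1 s hs]; exact h.SW s
        · exact (hge s (by omega)).trans hRW
      SS := by
        intro s t hst
        have hst' : s.val ≠ t.val := fun h => hst (Fin.ext h)
        by_cases hs : s.val < u
        · by_cases ht : t.val < u
          · rw [hSS1 s hs, hSS1 t ht]; exact h.SS s t hst
          · rw [hSS1 s hs]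
            exact Finset.disjoint_of_subset_right (hge t (by omega)) (hlt s hs)
        · by_cases ht : t.val < u
          · rw [hSS1 t ht]
            exact (Finset.disjoint_of_subset_right (hge s (by omega)) (hlt t ht)).symm
          · rcases (not_lt.1 hs).eq_or_lt with hs1 | hs1
            · have ht1 : u < t.val := by omega
              rw [hSS2 s hs1.symm, hSS3 t ht1, Finset.disjoint_left]
              intro v hv hv'
              exact (Finset.mem_sdiff.1 (hS2R _ (by have := t.2; omega) hv')).2 hv
            · rcases (not_lt.1 ht).eq_or_lt with ht1 | ht1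
              · rw [hSS2 t ht1.symm, hSS3 s hs1, Finset.disjoint_left]
                intro v hv hv'
                exact (Finset.mem_sdiff.1 (hS2R _ (by have := s.2; omega) hv)).2 hv'
              · rw [hSS3 s hs1, hSS3 t ht1]
                exact hS2d _ _ (by have := s.2; omega) (by have := t.2; omega) (by omega) }
  have hW' : h'.W = h.W := rfl
  have hF' : h'.F = h.F := rfl
  have hz' : h'.z = h.z := rfl
  have hfl' : h'.flex ⟨u, hu⟩ = ed S' := by
    simp only [HC.flex, ed, hW', hF', hz']
    have : h'.S ⟨u, hu⟩ = S' := hSS2 ⟨u, hu⟩ rfl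
    rw [this]
  have hnotin : ed S' ∉ insert x A ∪ B := by
    intro hin
    apply hmB
    rw [hBad, Finset.mem_filter]
    refine ⟨hin, ?_⟩
    rw [hedW, Finset.card_sdiff_of_subset (hS'R.trans hRW), hS'c, h.cW]
    have h1 : p.w ≤ p.r * p.w := Nat.le_mul_of_pos_left _ (by omega)
    have := p.w0_ge
    omega
  refine ⟨ed S', ?_, fun hin => hnotin (Finset.mem_union_left _ hin),
    fun hin => hnotin (Finset.mem_union_right _ hin), h', hc, ?_, hN, ?_⟩
  · rw [← hfl']
    exact hk h' _ (Finset.mem_union_right _ (Finset.mem_image_of_mem _ (Finset.mem_univ _)))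
  · intro s hs
    rcases Nat.lt_succ_iff_lt_or_eq.1 hs with hs | hs
    · have : h'.flex s = h.flex s := by
        simp only [HC.flex, hW', hF', hz']
        have : h'.S s = h.S s := hSS1 s hs
        rw [this]
      rw [this]
      exact Finset.mem_insert_of_mem (hB s hs)
    · have : s = ⟨u, hu⟩ := Fin.ext hs
      rw [this, hfl']
      exact Finset.mem_insert_self _ _
  · rw [hW']
    have h1 : (insert x A ∪ insert (ed S') B).filter (fun e => 2 ≤ (e ∩ h.W).card)
        ⊆ insert (ed S') Bad := by
      intro e he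
      rw [Finset.mem_filter, Finset.mem_union, Finset.mem_insert, Finset.mem_insert] at he
      rw [Finset.mem_insert, hBad, Finset.mem_filter, Finset.mem_union, Finset.mem_insert]
      tauto
    refine (Finset.card_le_card h1).trans ((Finset.card_insert_le _ _).trans ?_)
    omega

theorem flex (hC : S_CARD) (hE : S_EXT) : S_FLEX := by
  classical
  intro I _ _ p N0 c
  refine ⟨?_, fun u A B x hu hfl => step2 hC N0 c u A B x hu hfl, ?_, ?_⟩
  · intro A B
    obtain ⟨h, hc, hV⟩ := hE I p c ((A ∪ B ∪ N0).sup id)
    have key : ∀ g ∈ A ∪ B ∪ N0, Disjoint h.W g := by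
      intro g hg
      refine Finset.disjoint_of_subset_right ?_ hV
      intro v hv
      exact Finset.mem_sup.2 ⟨g, hg, hv⟩
    refine ⟨h, hc, fun s hs => absurd hs (Nat.not_lt_zero _),
      fun g hg => key g (Finset.mem_union_right _ hg), ?_⟩
    rw [Nat.mul_zero, Nat.le_zero, Finset.card_eq_zero, Finset.filter_eq_empty_iff]
    intro e he
    have h1 := key e (Finset.mem_union_left _ he)
    rw [Finset.inter_comm, Finset.disjoint_iff_inter_eq_empty.1 h1, Finset.card_empty]
    omega
  · rintro u A B x y ⟨h, hc, hB, hN, hcnt⟩ ⟨c', hx, hy, hcov⟩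
    refine ⟨h, hc, fun s hs => Finset.mem_insert_of_mem (hB s hs), hN, ?_⟩
    refine le_trans (Finset.card_le_card ?_) hcnt
    intro e he
    have hx' := meet_one c' N0 h.W hN hcov x hx
    have hy' := meet_one c' N0 h.W hN hcov y hy
    rw [Finset.mem_filter, Finset.mem_union, Finset.mem_insert, Finset.mem_insert] at he
    rw [Finset.mem_filter, Finset.mem_union]
    obtain ⟨he1, he2⟩ := he
    refine ⟨?_, he2⟩
    rcases he1 with (h1 | h1) | (h1 | h1)
    · subst h1; exact absurd he2 hx'
    · exact Or.inl h1
    · subst h1; exact absurd he2 hy'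
    · exact Or.inr h1
  · rintro A B ⟨h, hc, hB, -, -⟩ hcB
    refine ⟨h, ?_⟩
    unfold HC.hedges
    apply Finset.union_subset
    · rw [hc]; exact hcB
    · intro e he
      obtain ⟨s, -, rfl⟩ := Finset.mem_image.1 he
      exact hB s s.2

end Pool.Agent.W317.DR
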