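import Pool.Agent.W317.DR.Stm

/-!
Orientation of the two halves, forced edges, first consequences of a threat.
-/

set_option autoImplicit false

namespace Pool.Agent.W317.DR

variable {I : Type} [Fintype I] [DecidableEq I] {p : Par I}

theorem PP_disj_QQ (c : RC p) : Disjoint c.PP c.QQ := by
  rw [Finset.disjoint_left]
  intro v hv hw
  obtain ⟨i, -, hi⟩ := Finset.mem_biUnion.1 hv
  obtain ⟨j, -, hj⟩ := Finset.mem_biUnion.1 hw
  have hi' := Finset.mem_sdiff.1 hi
  by_cases hij : i = j
  · subst hij; exact hi'.2 hj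
  · exact Finset.disjoint_left.1 (c.XX i j hij) hi'.1 (c.TX j hj)

theorem PP_union_QQ (c : RC p) : c.PP ∪ c.QQ = c.U := by
  ext v
  simp only [RC.PP, RC.QQ, RC.U, Finset.mem_union, Finset.mem_biUnion, Finset.mem_univ, true_and,
    Finset.mem_sdiff]
  constructor
  · rintro (⟨i, hi, -⟩ | ⟨i, hi⟩)
    · exact ⟨i, hi⟩
    · exact ⟨i, c.TX i hi⟩
  · rintro ⟨i, hi⟩
    by_cases h : v ∈ c.T i
    · exact Or.inr ⟨i, h⟩
    · exact Or.inl ⟨i, hi, h⟩

theorem card_U (c : RC p) : c.U.card = ∑ i, p.x i := by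
  unfold RC.U
  rw [Finset.card_biUnion]
  · exact Finset.sum_congr rfl fun i _ => c.cX i
  · intro i _ j _ hij
    exact c.XX i j hij

theorem z_notMem_U (c : RC p) : c.z ∉ c.U := by
  intro h
  obtain ⟨i, -, hi⟩ := Finset.mem_biUnion.1 h
  exact c.zX i hi

theorem card_F_pos (c : RC p) : 0 < c.F.card := by
  rw [c.cF]
  have := p.nF_gt
  omega

theorem share {c c' : RC p} {N0 : Finset (Finset ℕ)} (hN : N0.card ≤ Fintype.card I + 1)
    (h1 : Pot p N0 c) (h2 : Pot p N0 c') :
    Fintype.card I ≤ (c.coreS ∩ c'.coreS).card + (4 * p.r + 20) := by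
  have h3 : (c.coreS ∩ N0).card + (c'.coreS ∩ N0).card ≤
      N0.card + ((c.coreS ∩ N0) ∩ (c'.coreS ∩ N0)).card := by
    rw [← Finset.card_union_add_card_inter]
    gcongr
    exact Finset.union_subset Finset.inter_subset_right Finset.inter_subset_right
  have h4 : ((c.coreS ∩ N0) ∩ (c'.coreS ∩ N0)).card ≤ (c.coreS ∩ c'.coreS).card := by
    apply Finset.card_le_card
    intro e he
    simp only [Finset.mem_inter] at he ⊢
    tauto
  unfold Pot at h1 h2
  have := p.beta_ge
  omega

theorem yp (hA : S_AL) : S_YP := by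
  intro I _ _ p c N0 hN h
  by_cases hc : ∃ cs : RC p, Pot p N0 cs ∧ c.QQ ⊆ cs.U
  · left
    obtain ⟨cs, hcs, hQ⟩ := hc
    refine ⟨PP_disj_QQ c, fun c' hc' => ⟨(h c' hc').2, fun hP => ?_⟩⟩
    have h1 := hA I p c' cs (share hN hc' hcs)
    have hU : c'.U = cs.U := by
      unfold RC.U
      rw [h1.2]
    rw [PP_union_QQ]
    symm
    apply Finset.eq_of_subset_of_card_le
    · rw [← PP_union_QQ c]
      exact Finset.union_subset hP (hU ▸ hQ)
    · rw [card_U, card_U]
  · right
    push Not at hc
    refine ⟨(PP_disj_QQ c).symm, fun c' hc' => ⟨(h c' hc').1, fun hP => ?_⟩⟩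
    exact absurd hP (hc c' hc')

theorem cl0 (hV : S_COV) : S_CL0 := by
  intro I _ _ p N0 Y Y' B c1 h e hY hp hfr hfo
  obtain ⟨ζ, he, hB, hz1, hz2, hz3⟩ := hfo
  obtain ⟨hd, hY⟩ := hY
  obtain ⟨hF, hYU⟩ := hY c1 hp
  have hcov := (hV I p c1).2 N0 hp
  have hUU : h.toRC.U = c1.U := by
    unfold RC.U
    rw [hfr.2]
  have hzF : ζ ∉ c1.F := by
    intro hz
    obtain ⟨g, hg, hg'⟩ := hcov ζ (Finset.mem_union_left _ hz)
    exact hz3 g hg hg'
  have hzU : ζ ∉ c1.U := by
    intro hz
    obtain ⟨g, hg, hg'⟩ := hcov ζ (Finset.mem_union_right _ hz)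
    exact hz3 g hg hg'
  have key : ¬ c1.F ⊆ e := by
    intro hs
    apply hF
    intro v hv
    have h1 := hs hv
    rw [he] at h1
    rcases Finset.mem_insert.1 h1 with h1 | h1
    · subst h1
      exact absurd hv hzF
    · exact h1
  have hcore : e ∉ h.toRC.coreS := by
    intro hc
    obtain ⟨j, -, hj⟩ := Finset.mem_image.1 hc
    apply key
    rw [← hj, ← hfr.1]
    exact Finset.subset_union_left
  have hflex : ∀ s, e ≠ h.flex s := by
    intro s hs
    apply key
    rw [hs, ← hfr.1]
    unfold HC.flex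
    exact Finset.subset_union_left.trans (Finset.subset_insert _ _)
  have hzPP : ζ ∉ h.toRC.PP := by
    intro hz
    apply hzU
    rw [← hUU, ← PP_union_QQ]
    exact Finset.mem_union_left _ hz
  have hzQQ : ζ ∉ h.toRC.QQ := by
    intro hz
    apply hzU
    rw [← hUU, ← PP_union_QQ]
    exact Finset.mem_union_right _ hz
  have hzz := z_notMem_U h.toRC
  have hzP : h.toRC.z ∉ h.toRC.PP := by
    intro hz
    apply hzz
    rw [← PP_union_QQ]
    exact Finset.mem_union_left _ hz
  have hzQ : h.toRC.z ∉ h.toRC.QQ := by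
    intro hz
    apply hzz
    rw [← PP_union_QQ]
    exact Finset.mem_union_right _ hz
  refine ⟨hcore, hflex, fun hdis hmem => ?_⟩
  have gen : ∀ P Q : Finset ℕ, ζ ∉ P → h.toRC.z ∉ P → P ∪ Q = c1.U → Disjoint P Q →
      e = insert h.toRC.z P → insert h.toRC.z Q ∈ h.toRC.edges → False := by
    intro P Q hP1 hP2 hPQ hPQd heP hQe
    have hz : ζ = h.toRC.z := by
      have : ζ ∈ insert h.toRC.z P := by
        rw [← heP, he]
        exact Finset.mem_insert_self _ _
      rcases Finset.mem_insert.1 this with h | h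
      · exact h
      · exact absurd h hP1
    have hYP : Y = P := by
      have h1 : insert ζ Y = insert ζ P := by
        rw [← he, heP, hz]
      have h2 := congrArg (fun s => Finset.erase s ζ) h1
      simpa [Finset.erase_insert hz1, Finset.erase_insert hP1] using h2
    have hU := hYU (by rw [hYP, ← hPQ]; exact Finset.subset_union_left)
    have hQ : Y' = Q := by
      have h1 : Y ∪ Y' = Y ∪ Q := by
        rw [← hU, ← hPQ, hYP]
      ext v
      have h2 : v ∈ Y ∪ Y' ↔ v ∈ Y ∪ Q := by rw [h1]
      simp only [Finset.mem_union] at h2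
      constructor
      · intro hv
        have h3 : v ∉ Y := fun h => Finset.disjoint_left.1 hd h hv
        tauto
      · intro hv
        have h3 : v ∉ Y := by
          rw [hYP]
          exact fun h => Finset.disjoint_left.1 hPQd h hv
        tauto
    apply Finset.disjoint_left.1 hdis hQe
    rw [← hQ, ← hz]
    exact hB
  rcases Finset.mem_union.1 hmem with hm | hm
  · simp only [RC.edges, Finset.mem_insert] at hm
    rcases hm with hm | hm | hm
    · exact gen h.toRC.PP h.toRC.QQ hzPP hzP (by rw [PP_union_QQ, hUU]) (PP_disj_QQ _) hm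
        (by simp [RC.edges, RC.gb])
    · exact gen h.toRC.QQ h.toRC.PP hzQQ hzQ (by rw [Finset.union_comm, PP_union_QQ, hUU])
        (PP_disj_QQ _).symm hm (by simp [RC.edges, RC.ga])
    · exact hcore hm
  · obtain ⟨s, -, hs⟩ := Finset.mem_image.1 hm
    exact hflex s hs.symm

theorem thr (hC : S_CARD) : S_THR := by
  intro I _ _ p A B x y c hAB hnt hxA hxB ht
  obtain ⟨hcs, -, -, -, -, -, -⟩ := hC I p
  obtain ⟨h1, h2, h3⟩ := ht
  have hx : x ∈ c.edges := by
    by_contra hx
    refine hnt.1 c y ⟨fun h => h1 (Finset.mem_insert_of_mem h), h2, fun e he => ?_⟩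
    have h4 := h3 he
    simp only [Finset.mem_insert] at h4 ⊢
    rcases h4 with h4 | h4 | h4
    · exact Or.inl h4
    · subst h4; exact absurd he hx
    · exact Or.inr h4
  have hy : y ∈ c.edges := by
    by_contra hy
    refine hnt.1 c x ⟨hxA, hxB, fun e he => ?_⟩
    have h4 := h3 he
    rcases Finset.mem_insert.1 h4 with h4 | h4
    · subst h4; exact absurd he hy
    · exact h4
  have hyx : y ≠ x := by
    rintro rfl
    exact h1 (Finset.mem_insert_self _ _)
  have hdis : Disjoint c.edges B := by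
    rw [Finset.disjoint_left]
    intro e he heB
    have h4 := h3 he
    simp only [Finset.mem_insert] at h4
    rcases h4 with h4 | h4 | h4
    · subst h4; exact h2 heB
    · subst h4; exact hxB heB
    · exact Finset.disjoint_left.1 hAB h4 heB
  have hsd : c.edges \ insert x A = {y} := by
    ext e
    simp only [Finset.mem_sdiff, Finset.mem_singleton]
    constructor
    · rintro ⟨h4, h5⟩
      rcases Finset.mem_insert.1 (h3 h4) with h6 | h6
      · exact h6
      · exact absurd h6 h5
    · rintro rfl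
      exact ⟨hy, h1⟩
  have hle : (c.coreS \ insert x A).card ≤ 1 := by
    have h4 : c.coreS \ insert x A ⊆ c.edges \ insert x A := by
      apply Finset.sdiff_subset_sdiff _ le_rfl
      unfold RC.edges
      exact (Finset.subset_insert _ _).trans (Finset.subset_insert _ _)
    have h5 := Finset.card_le_card h4
    rw [hsd, Finset.card_singleton] at h5
    exact h5
  refine ⟨hx, hy, hyx, hdis, hsd, hle, ?_⟩
  have h6 := Finset.card_inter_add_card_sdiff c.coreS (insert x A)
  rw [hcs c] at h6
  omega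

end Pool.Agent.W317.DR
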