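import Pool.Agent.W317.DR.Final
import Pool.Agent.W317.DR.YP
import Pool.Agent.W317.DR.Flex
import Pool.Agent.W22.DR.GL
import Pool.Agent.W22.DR.Card
import Pool.Agent.W22.DR.L4
import Pool.Agent.W337.DR.SL
import Pool.Agent.W337.DR.PAR
import Pool.Agent.W390.DR.Al
import Pool.Agent.W390.DR.Del
import Pool.Agent.W346.DR.Cnt
import Pool.Agent.W346.DR.Ref

/-!
Everything except the abstract hypergraph (S_TR, S_EX).
-/

set_option autoImplicit false

namespace Pool.Agent.W317.DR

theorem allcard : S_CARD := Pool.Agent.W22.DR.card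
theorem alldel : S_DEL := Pool.Agent.W390.DR.del
theorem allcnt : S_CNT :=
  Pool.Agent.W346.DR.cnt allcard alldel ext Pool.Agent.W390.DR.type Pool.Agent.W390.DR.sim
    (cl0 Pool.Agent.W390.DR.cov)
theorem allnear : S_NEAR :=
  Pool.Agent.W346.DR.near allcard ext Pool.Agent.W390.DR.al allcnt
theorem allref : S_REF :=
  Pool.Agent.W346.DR.ref allcard alldel ext (cl0 Pool.Agent.W390.DR.cov) (thr allcard)
theorem allgq : S_GQ :=
  Pool.Agent.W346.DR.gq allcard ext Pool.Agent.W390.DR.type (cl0 Pool.Agent.W390.DR.cov)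
    (thr allcard) allnear
theorem alll2 : S_L2 :=
  Pool.Agent.W346.DR.l2 allcard ext (cl0 Pool.Agent.W390.DR.cov) (thr allcard) allnear allref
theorem alll3 : S_L3 :=
  Pool.Agent.W346.DR.l3 allcard Pool.Agent.W390.DR.type Pool.Agent.W390.DR.cov (thr allcard)
    allnear allref allgq
theorem alll4 : S_L4 :=
  Pool.Agent.W22.DR.l4 Pool.Agent.W390.DR.type (cl0 Pool.Agent.W390.DR.cov) allnear
    (thr allcard) allref allgq

theorem allmain (hX : S_EX) : S_MAIN :=
  main hX allcard ext Pool.Agent.W390.DR.split Pool.Agent.W390.DR.fprop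
    (yp Pool.Agent.W390.DR.al) (thr allcard) alll2 alll3 alll4 (flex allcard ext)

theorem allfinal (hX : S_EX) (hT : S_TR) : Target :=
  final Pool.Agent.W22.DR.GL.gl Pool.Agent.W337.DR.sl Pool.Agent.W337.DR.par hT (allmain hX)

end Pool.Agent.W317.DR
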