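import Mathlib

/-!
Drawn strong Ramsey games (MP_9571c3_co, S10231): the numerical parameters, the set-level copies of
the gadget hypergraph, and the invariants of the drawing strategy of the second player.
-/

set_option autoImplicit false

namespace Pool.Agent.W317.DR

/-- numerical parameters; the number of core edges is `Fintype.card I` -/
structure Par (I : Type) [Fintype I] [DecidableEq I] where
  D : ℕ
  r : ℕ
  N : I → Finset I
  x : I → ℕ
  q : I → ℕ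
  nF : ℕ
  w : ℕ
  w0 : ℕ
  k : ℕ
  big : ℕ
  hh : ℕ
  hl : ℕ
  r_ge : 2 ≤ r
  N_symm : ∀ i j, i ∈ N j → j ∈ N i
  N_irr : ∀ i, i ∉ N i
  N_card : ∀ i, (N i).card = D
  N_far : ∀ i l, i ≠ l → 6 * r + 40 ≤ (N i \ N l).card
  D_ge : 6 * r + 40 ≤ D
  beta_ge : D + 12 * r + 100 ≤ Fintype.card I
  q_le : ∀ i, q i ≤ x i
  q_hl : ∀ i, hl ≤ q i
  q_hh : ∀ i, q i ≤ hh
  p_hl : ∀ i, hl ≤ x i - q i
  p_hh : ∀ i, x i - q i ≤ hh
  x_hh : ∀ i, hh < x i
  hh_hl : hh ≤ 2 * hl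
  x_inj : Function.Injective x
  q_ne : ∀ i, q i ≠ x i - q i
  k_core : ∀ j, nF + (q j + ∑ l ∈ N j, x l) = k
  k_a : 1 + ∑ j, (x j - q j) = k
  k_b : 1 + ∑ j, q j = k
  k_f : 1 + (nF + ((r - 1) * w + w0)) = k
  w_gt : (6 * r + 30) * hh + 1 < w
  nF_gt : (6 * r + 30) * hh + 1 < nF
  early : (D + r + 8) * hh + Fintype.card I * big < nF
  big_ge : 2 ^ (Fintype.card I + 3) ≤ big
  hl_ge : 2 ^ (Fintype.card I + 3) + 4 * Fintype.card I + 5 ≤ hl
  w0_ge : 2 * r + 5 ≤ w0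

variable {I : Type} [Fintype I] [DecidableEq I]

/-- a set-level copy of the rook-code gadget `R`: core edges plus two gadget edges -/
@[ext] structure RC (p : Par I) where
  F : Finset ℕ
  X : I → Finset ℕ
  T : I → Finset ℕ
  z : ℕ
  cF : F.card = p.nF
  cX : ∀ i, (X i).card = p.x i
  cT : ∀ i, (T i).card = p.q i
  TX : ∀ i, T i ⊆ X i
  FX : ∀ i, Disjoint F (X i)
  XX : ∀ i j, i ≠ j → Disjoint (X i) (X j)
  zF : z ∉ F
  zX : ∀ i, z ∉ X i

namespace RC
variable {p : Par I} (c : RC p)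

/-- the core edge with index `j` -/
def core (j : I) : Finset ℕ := c.F ∪ (c.T j ∪ (p.N j).biUnion c.X)
/-- union of the blocks -/
def U : Finset ℕ := Finset.univ.biUnion c.X
/-- union of the `Q` parts -/
def QQ : Finset ℕ := Finset.univ.biUnion c.T
/-- union of the `P` parts -/
def PP : Finset ℕ := Finset.univ.biUnion (fun j => c.X j \ c.T j)
/-- first gadget edge -/
def ga : Finset ℕ := insert c.z c.PP
/-- second gadget edge -/
def gb : Finset ℕ := insert c.z c.QQ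
/-- the set of core edges -/
def coreS : Finset (Finset ℕ) := Finset.univ.image c.core
/-- all the edges of the copy -/
def edges : Finset (Finset ℕ) := insert c.ga (insert c.gb c.coreS)

/-- same frame -/
def SameFr (c c' : RC p) : Prop := c.F = c'.F ∧ c.X = c'.X

end RC

/-- a set-level copy of the whole hypergraph `H` -/
@[ext] structure HC (p : Par I) extends RC p where
  W : Finset ℕ
  S : Fin p.r → Finset ℕ
  cW : W.card = p.r * p.w + p.w0
  cS : ∀ s, (S s).card = p.w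
  SW : ∀ s, S s ⊆ W
  SS : ∀ s t, s ≠ t → Disjoint (S s) (S t)
  WF : Disjoint W F
  WX : ∀ i, Disjoint W (X i)
  zW : z ∉ W

namespace HC
variable {p : Par I} (h : HC p)

/-- the flex edges -/
def flex (s : Fin p.r) : Finset ℕ := insert h.z (h.F ∪ (h.W \ h.S s))
/-- all the edges -/
def hedges : Finset (Finset ℕ) := h.toRC.edges ∪ Finset.univ.image h.flex

end HC

/-- a vertex-labelled hypergraph has a copy inside a set of edges -/
def HasCopy {n : ℕ} (H : Finset (Finset (Fin n))) (A : Finset (Finset ℕ)) : Prop :=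
  ∃ f : Fin n → ℕ, Function.Injective f ∧ ∀ e ∈ H, e.image f ∈ A

/-- the set `A` contains a set-level copy -/
def HasHC (p : Par I) (A : Finset (Finset ℕ)) : Prop := ∃ h : HC p, h.hedges ⊆ A

/-- `y` is a threat for the owner of `A` -/
def Thr (p : Par I) (A B : Finset (Finset ℕ)) (c : RC p) (y : Finset ℕ) : Prop :=
  y ∉ A ∧ y ∉ B ∧ c.edges ⊆ insert y A

/-- no threat and no copy of the gadget -/
def NoThr (p : Par I) (A B : Finset (Finset ℕ)) : Prop :=
  (∀ c y, ¬ Thr p A B c y) ∧ ∀ c : RC p, ¬ c.edges ⊆ A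

/-- potential copies relative to the first `β+1` edges of the first player -/
def Pot (p : Par I) (N0 : Finset (Finset ℕ)) (c : RC p) : Prop :=
  Fintype.card I ≤ (c.coreS ∩ N0).card + (p.r + 6)

/-- the property of the pair `Y`, `Y'` of halves -/
def YProp (p : Par I) (N0 : Finset (Finset ℕ)) (Y Y' : Finset ℕ) : Prop :=
  Disjoint Y Y' ∧ ∀ c : RC p, Pot p N0 c → ¬ c.F ⊆ Y ∧ (Y ⊆ c.U → c.U = Y ∪ Y')

/-- forced edges -/
def FoOK (N0 : Finset (Finset ℕ)) (Y Y' : Finset ℕ) (B : Finset (Finset ℕ))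
    (e : Finset ℕ) : Prop :=
  ∃ ζ : ℕ, e = insert ζ Y ∧ insert ζ Y' ∈ B ∧ ζ ∉ Y ∧ ζ ∉ Y' ∧ ∀ g ∈ N0, ζ ∉ g

/-- the basic invariant: the first player's edges are quiet, tempo or forced -/
structure Inv (p : Par I) (N0 : Finset (Finset ℕ)) (Y Y' : Finset ℕ)
    (A B Qu Te Fo : Finset (Finset ℕ)) : Prop where
  hA : A = Qu ∪ (Te ∪ Fo)
  hAB : Disjoint A B
  cN0 : N0.card ≤ Fintype.card I + 1
  hN0 : (Qu \ N0).card ≤ p.r + 1
  hQ1 : Fintype.card I ≤ Qu.card
  hQ2 : Qu.card ≤ Fintype.card I + 1 + p.r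
  nt : NoThr p A B
  hY : YProp p N0 Y Y'
  fo : ∀ e ∈ Fo, FoOK N0 Y Y' B e

/-- the description of the tempo edges relative to the reference copy `c1` -/
structure TeI (p : Par I) (N0 A B Qu Te : Finset (Finset ℕ)) (c1 : RC p)
    (ρ : Finset ℕ → RC p) : Prop where
  pot : Pot p N0 c1
  ref : Fintype.card I ≤ (c1.coreS ∩ Qu).card + 2
  fr : ∀ t ∈ Te, (ρ t).SameFr c1
  mem : ∀ t ∈ Te, t ∈ (ρ t).edges
  miss : ∀ t ∈ Te, ((ρ t).edges \ A).card ≤ 1
  blk : ∀ t ∈ Te, ∃ b ∈ B, b ∈ (ρ t).edges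
  gad : ∀ t ∈ Te, t ∈ (ρ t).coreS → (ρ t).ga ∈ Qu ∨ (ρ t).gb ∈ Qu
  inj : ∀ t ∈ Te, ∀ t' ∈ Te, ρ t = ρ t' → t = t'

/-- the full invariant -/
def FInv (p : Par I) (N0 : Finset (Finset ℕ)) (Y Y' : Finset ℕ)
    (A B Qu Te Fo : Finset (Finset ℕ)) : Prop :=
  Inv p N0 Y Y' A B Qu Te Fo ∧ (Te = ∅ ∨ ∃ c1 ρ, TeI p N0 A B Qu Te c1 ρ)

/-- `T` splits `X` with respect to the family `G` -/
def Split (G : Finset (Finset ℕ)) (big : ℕ) (X T : Finset ℕ) : Prop :=
  ∀ E ⊆ G, E.Nonempty → big ≤ (X.filter (fun v => ∀ e ∈ E, v ∈ e)).card →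
    (∃ v ∈ T, ∀ e ∈ E, v ∈ e) ∧ (∃ v ∈ X \ T, ∀ e ∈ E, v ∈ e)

/-- the position of an index in the order in which the second player plays the core edges -/
noncomputable def ix (i : I) : ℕ := (Fintype.equivFin I i : ℕ)

end Pool.Agent.W317.DR
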