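import Pool.Agent.W317.DR.Main

/-!
The final deduction: the frozen statement from the lemma statements.
-/

set_option autoImplicit false

namespace Pool.Agent.W317.DR

/-- the statement of `S10231` -/
def Target : Prop :=
  ∀ d : ℕ, 3 ≤ d → ∃ (k n : ℕ) (H : Finset (Finset (Fin n))), 0 < n ∧
    (∀ e ∈ H, e.card = k) ∧
    (∀ v : Fin n, d ≤ (H.filter (fun e => v ∈ e)).card) ∧
    (¬ ∃ s : List (Finset ℕ) → Finset ℕ, ∀ m : ℕ → Finset ℕ,
        (∀ i : ℕ, Even i → m i = s (List.ofFn (fun j : Fin i => m j))) →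
        (∀ i : ℕ, Odd i → (m i).card = k ∧ ∀ j < i, m j ≠ m i) →
        ∃ N : ℕ, Even N ∧
          (∀ i ≤ N, Even i → (m i).card = k ∧ ∀ j < i, m j ≠ m i) ∧
          (∃ f : Fin n → ℕ, Function.Injective f ∧
              ∀ e ∈ H, ∃ i ≤ N, Even i ∧ m i = e.image f) ∧
          ¬ (∃ f : Fin n → ℕ, Function.Injective f ∧
              ∀ e ∈ H, ∃ i < N, Odd i ∧ m i = e.image f)) ∧
    (¬ ∃ t : List (Finset ℕ) → Finset ℕ, ∀ m : ℕ → Finset ℕ,
        (∀ i : ℕ, Odd i → m i = t (List.ofFn (fun j : Fin i => m j))) →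
        (∀ i : ℕ, Even i → (m i).card = k ∧ ∀ j < i, m j ≠ m i) →
        ∃ N : ℕ, Odd N ∧
          (∀ i ≤ N, Odd i → (m i).card = k ∧ ∀ j < i, m j ≠ m i) ∧
          (∃ f : Fin n → ℕ, Function.Injective f ∧
              ∀ e ∈ H, ∃ i ≤ N, Odd i ∧ m i = e.image f) ∧
          ¬ (∃ f : Fin n → ℕ, Function.Injective f ∧
              ∀ e ∈ H, ∃ i < N, Even i ∧ m i = e.image f))

theorem final (hGL : S_GL) (hSL : S_SL) (hP : S_PAR) (hT : S_TR) (hM : S_MAIN) : Target := by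
  intro d hd
  obtain ⟨L, p, hp⟩ := hP (d + 1) (by omega)
  obtain ⟨n, H, hn, hne, hk, hdeg, hcopy⟩ := hT (Fin L × Fin L) p
  obtain ⟨Good, hG0, hG⟩ := hM (Fin L × Fin L) p
  have hk1 : 1 ≤ p.k := by
    have := p.k_a
    omega
  refine ⟨p.k, n, H, hn, hk, ?_, ?_, ?_⟩
  · intro v
    have := hdeg v
    rw [hp] at this
    simpa using this
  · refine hGL p.k n H Good hG0 ?_
    intro A B hAB x hx hxA hxB
    obtain ⟨h1, y, hy1, hy2, hy3, hy4⟩ := hG A B hAB x hx hxA hxB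
    refine ⟨fun h => h1 ((hcopy _).1 h), y, hy1, hy2, hy3, ?_⟩
    rcases hy4 with h | h
    · exact Or.inl h
    · exact Or.inr ((hcopy _).2 h)
  · exact hSL p.k n H hk1 hne hk

end Pool.Agent.W317.DR
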