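import Pool.Agent.W317.DR.Stm

/-!
The assembly of the drawing strategy of the second player (statement `S_MAIN`).
-/

set_option autoImplicit false

namespace Pool.Agent.W317.DR

variable {I : Type} [Fintype I] [DecidableEq I]

/-- orientation of the two halves -/
def Ori {p : Par I} (c : RC p) (Y Y' : Finset ℕ) : Prop :=
  (Y = c.PP ∧ Y' = c.QQ) ∨ (Y = c.QQ ∧ Y' = c.PP)

/-- phase 1 -/
def Ph1 (p : Par I) (A B : Finset (Finset ℕ)) : Prop :=
  ∃ i, i ≤ Fintype.card I ∧ A.card = i ∧ B.card = i ∧ Disjoint A B ∧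
    ∃ (c : RC p) (Ach : I → Finset (Finset ℕ)), ∀ j, ix j < i →
      c.core j ∈ B ∧ Ach j ⊆ A ∧ (Ach j).card = ix j + 1 ∧ Split (Ach j) p.big (c.X j) (c.T j)

/-- mode A: the core is complete, no pending opening -/
def MA (p : Par I) (A B : Finset (Finset ℕ)) : Prop :=
  ∃ N0 Y Y' Qu Te Fo, FInv p N0 Y Y' A B Qu Te Fo ∧ Qu.card ≤ Fintype.card I ∧ Qu ⊆ N0 ∧
    ∃ c : RC p, c.coreS ⊆ B ∧ Ori c Y Y'

/-- mode B: pending opening -/
def MB (p : Par I) (A B : Finset (Finset ℕ)) : Prop :=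
  ∃ N0 Y Y' Qu Te Fo, FInv p N0 Y Y' A B Qu Te Fo ∧ Qu.card ≤ Fintype.card I + 1 ∧
    (Qu \ N0).card ≤ 1 ∧
    ∃ c : RC p, c.coreS ⊆ B ∧ Ori c Y Y' ∧ insert c.z Y' ∈ B ∧ insert c.z Y ∉ A ∧
      insert c.z Y ∉ B ∧ (∀ g ∈ N0, c.z ∉ g)

/-- mode C: the gadget is complete, `u` flex edges claimed -/
def MC (p : Par I) (u : ℕ) (A B : Finset (Finset ℕ)) : Prop :=
  u < p.r ∧ ∃ N0 Y Y' Qu Te Fo, FInv p N0 Y Y' A B Qu Te Fo ∧
    Qu.card ≤ Fintype.card I + 2 + u ∧ (Qu \ N0).card ≤ 2 + u ∧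
    ∃ c : RC p, c.edges ⊆ B ∧ FlexSt p N0 c u A B

/-- mode E: the race is won -/
def ME (p : Par I) (u : ℕ) (A B : Finset (Finset ℕ)) : Prop :=
  u < p.r ∧ Disjoint A B ∧
    (∀ h : HC p, Disjoint h.hedges B → (h.hedges ∩ A).card ≤ Fintype.card I + 1 + u) ∧
    ∃ N0, ∃ c : RC p, c.edges ⊆ B ∧ FlexSt p N0 c u A B

/-- the invariant of the second player -/
def Good (p : Par I) (A B : Finset (Finset ℕ)) : Prop :=
  Ph1 p A B ∨ MA p A B ∨ MB p A B ∨ (∃ u, MC p u A B) ∨ (∃ u, ME p u A B)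

/-- the conclusion of a step -/
def Concl (p : Par I) (A B : Finset (Finset ℕ)) (x : Finset ℕ) : Prop :=
  ¬ HasHC p (insert x A) ∧
    ∃ y : Finset ℕ, y.card = p.k ∧ y ∉ insert x A ∧ y ∉ B ∧
      (Good p (insert x A) (insert y B) ∨ HasHC p (insert y B))

variable {p : Par I} {N0 : Finset (Finset ℕ)} {Y Y' : Finset ℕ}
  {A B Qu Te Fo : Finset (Finset ℕ)} {x y : Finset ℕ}

theorem FoOK.mono {B' : Finset (Finset ℕ)} {e : Finset ℕ} (h : FoOK N0 Y Y' B e)
    (hB : B ⊆ B') : FoOK N0 Y Y' B' e := by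
  obtain ⟨ζ, h1, h2, h3⟩ := h
  exact ⟨ζ, h1, hB h2, h3⟩

theorem NoThr.mono (h : NoThr p A B) : NoThr p A (insert y B) :=
  ⟨fun c z hc => h.1 c z ⟨hc.1, fun hz => hc.2.1 (Finset.mem_insert_of_mem hz), hc.2.2⟩, h.2⟩

theorem Inv.mono (h : Inv p N0 Y Y' A B Qu Te Fo) (hy : y ∉ A) :
    Inv p N0 Y Y' A (insert y B) Qu Te Fo where
  hA := h.hA
  hAB := by
    rw [Finset.disjoint_insert_right]
    exact ⟨hy, h.hAB⟩
  cN0 := h.cN0
  hN0 := h.hN0
  hQ1 := h.hQ1
  hQ2 := h.hQ2
  nt := h.nt.mono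
  hY := h.hY
  fo := fun e he => (h.fo e he).mono (Finset.subset_insert _ _)

theorem TeI.mono {c1 : RC p} {ρ : Finset ℕ → RC p} (h : TeI p N0 A B Qu Te c1 ρ) :
    TeI p N0 A (insert y B) Qu Te c1 ρ where
  pot := h.pot
  ref := h.ref
  fr := h.fr
  mem := h.mem
  miss := h.miss
  blk := fun t ht => by
    obtain ⟨b, hb, hb'⟩ := h.blk t ht
    exact ⟨b, Finset.mem_insert_of_mem hb, hb'⟩
  gad := h.gad
  inj := h.inj

theorem FInv.mono (h : FInv p N0 Y Y' A B Qu Te Fo) (hy : y ∉ A) :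
    FInv p N0 Y Y' A (insert y B) Qu Te Fo := by
  refine ⟨h.1.mono hy, ?_⟩
  rcases h.2 with h2 | ⟨c1, ρ, h2⟩
  · exact Or.inl h2
  · exact Or.inr ⟨c1, ρ, h2.mono⟩

/-- no copy of the gadget after the move `x` -/
theorem no_copy (h : Inv p N0 Y Y' A B Qu Te Fo) (hxA : x ∉ A) (hxB : x ∉ B) (c : RC p) :
    ¬ c.edges ⊆ insert x A := fun hc => h.nt.1 c x ⟨hxA, hxB, hc⟩

theorem no_HC (h : Inv p N0 Y Y' A B Qu Te Fo) (hxA : x ∉ A) (hxB : x ∉ B) :
    ¬ HasHC p (insert x A) := by
  rintro ⟨g, hg⟩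
  exact no_copy h hxA hxB g.toRC (Finset.subset_union_left.trans hg)

/-- the quiet move -/
theorem quiet (h : FInv p N0 Y Y' A B Qu Te Fo) (hxA : x ∉ A) (hxB : x ∉ B)
    (hq : ∀ c y, ¬ Thr p (insert x A) B c y)
    (h1 : (insert x Qu).card ≤ Fintype.card I + 1 + p.r)
    (h2 : (insert x Qu \ N0).card ≤ p.r + 1) :
    FInv p N0 Y Y' (insert x A) B (insert x Qu) Te Fo := by
  obtain ⟨hi, ht⟩ := h
  refine ⟨⟨?_, ?_, hi.cN0, h2, ?_, h1, ⟨hq, no_copy hi hxA hxB⟩, hi.hY, hi.fo⟩, ?_⟩
  · rw [Finset.insert_union, ← hi.hA]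
  · rw [Finset.disjoint_insert_left]
    exact ⟨hxB, hi.hAB⟩
  · exact hi.hQ1.trans (Finset.card_le_card (Finset.subset_insert _ _))
  · rcases ht with ht | ⟨c1, ρ, ht⟩
    · exact Or.inl ht
    · refine Or.inr ⟨c1, ρ, ⟨ht.pot, ?_, ht.fr, ht.mem, ?_, ht.blk, ?_, ht.inj⟩⟩
      · refine ht.ref.trans ?_
        gcongr
        exact Finset.subset_insert _ _
      · intro t htt
        refine le_trans (Finset.card_le_card ?_) (ht.miss t htt)
        exact Finset.sdiff_subset_sdiff le_rfl (Finset.subset_insert _ _)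
      · intro t htt hc
        rcases ht.gad t htt hc with h | h
        · exact Or.inl (Finset.mem_insert_of_mem h)
        · exact Or.inr (Finset.mem_insert_of_mem h)

/-- cardinal of the quiet set after a quiet move -/
theorem quiet_card : (insert x Qu).card ≤ Qu.card + 1 := Finset.card_insert_le _ _

theorem quiet_card' : (insert x Qu \ N0).card ≤ (Qu \ N0).card + 1 := by
  refine le_trans (Finset.card_le_card (t := insert x (Qu \ N0)) ?_) (Finset.card_insert_le _ _)
  intro e he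
  simp only [Finset.mem_sdiff, Finset.mem_insert] at he ⊢
  tauto

/-- changing the gadget vertex -/
def RC.setz (c : RC p) (ζ : ℕ) (h1 : ζ ∉ c.F) (h2 : ∀ i, ζ ∉ c.X i) : RC p :=
  { c with z := ζ, zF := h1, zX := h2 }

/-- opening -/
theorem opening (hC : S_CARD) (h : FInv p N0 Y Y' A B Qu Te Fo)
    (hQ : Qu.card ≤ Fintype.card I + 1) (hQ' : (Qu \ N0).card ≤ 1)
    (c : RC p) (hc : c.coreS ⊆ B) (ho : Ori c Y Y') :
    ∃ y : Finset ℕ, y.card = p.k ∧ y ∉ A ∧ y ∉ B ∧ MB p A (insert y B) := by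
  classical
  obtain ⟨-, hgab, -, -, -, -, hk⟩ := hC I p
  let V : Finset ℕ := c.F ∪ c.U ∪ ((A ∪ B ∪ N0).sup id)
  obtain ⟨ζ, hζ⟩ := Infinite.exists_notMem_finset V
  have hV : ∀ g ∈ A ∪ B ∪ N0, ζ ∉ g := by
    intro g hg hζg
    apply hζ
    refine Finset.mem_union_right _ ?_
    exact Finset.mem_sup.2 ⟨g, hg, hζg⟩
  have hVA : ∀ Z : Finset ℕ, insert ζ Z ∉ A := fun Z hZ =>
    hV _ (Finset.mem_union_left _ (Finset.mem_union_left _ hZ)) (Finset.mem_insert_self _ _)
  have hVB : ∀ Z : Finset ℕ, insert ζ Z ∉ B := fun Z hZ =>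
    hV _ (Finset.mem_union_left _ (Finset.mem_union_right _ hZ)) (Finset.mem_insert_self _ _)
  have hF : ζ ∉ c.F := fun h => hζ (Finset.mem_union_left _ (Finset.mem_union_left _ h))
  have hX : ∀ i, ζ ∉ c.X i := fun i h => hζ (Finset.mem_union_left _
    (Finset.mem_union_right _ (Finset.mem_biUnion.2 ⟨i, Finset.mem_univ _, h⟩)))
  let c' := c.setz ζ hF hX
  have hPP : c'.PP = c.PP := rfl
  have hQQ : c'.QQ = c.QQ := rfl
  have hcore : c'.coreS = c.coreS := rfl
  have hne : insert ζ Y ≠ insert ζ Y' := by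
    rcases ho with ⟨rfl, rfl⟩ | ⟨rfl, rfl⟩
    · exact (hgab c').2.2
    · exact (hgab c').2.2.symm
  refine ⟨insert ζ Y', ?_, ?_, ?_, ?_⟩
  · rcases ho with ⟨rfl, rfl⟩ | ⟨rfl, rfl⟩
    · exact hk c' c'.gb (by simp [RC.edges])
    · exact hk c' c'.ga (by simp [RC.edges])
  · exact hVA _
  · exact hVB _
  · refine ⟨N0, Y, Y', Qu, Te, Fo, h.mono (hVA _), hQ, hQ', c', ?_, ho, ?_, hVA _, ?_, ?_⟩
    · exact hc.trans (Finset.subset_insert _ _)
    · exact Finset.mem_insert_self _ _
    · intro h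
      rcases Finset.mem_insert.1 h with h | h
      · exact hne h
      · exact hVB _ h
    · intro g hg
      exact hV _ (Finset.mem_union_right _ hg)

/-- the double threat gives a copy of `H` with many edges -/
theorem big_copy (hC : S_CARD) (hE : S_EXT) (hH : S_THR) (h : Inv p N0 Y Y' A B Qu Te Fo)
    (hxA : x ∉ A) (hxB : x ∉ B) (c : RC p) (hc : Thr p (insert x A) B c y) :
    ∃ g : HC p, Disjoint g.hedges B ∧ Fintype.card I + 1 ≤ (g.hedges ∩ insert x A).card := by
  classical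
  obtain ⟨g, hg, hgV⟩ := hE I p c (B.sup id)
  obtain ⟨h1, h2, h3, h4, h5, -, -⟩ := hH I p A B x y c h.hAB h.nt hxA hxB hc
  obtain ⟨hcs, hgab, -, -, -, -, -⟩ := hC I p
  refine ⟨g, ?_, ?_⟩
  · rw [Finset.disjoint_left]
    intro e he heB
    rcases Finset.mem_union.1 he with he | he
    · rw [hg] at he
      exact Finset.disjoint_left.1 h4 he heB
    · obtain ⟨s, -, rfl⟩ := Finset.mem_image.1 he
      have hcard : 0 < (g.W \ g.S s).card := by
        rw [Finset.card_sdiff_of_subset (g.SW s), g.cW, g.cS]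
        have := p.w0_ge
        have := p.r_ge
        have h6 : p.w ≤ p.r * p.w := Nat.le_mul_of_pos_left _ (by omega)
        omega
      obtain ⟨v, hv⟩ := Finset.card_pos.1 hcard
      refine Finset.disjoint_left.1 hgV (Finset.mem_sdiff.1 hv).1 ?_
      refine Finset.mem_sup.2 ⟨_, heB, ?_⟩
      simp only [id, HC.flex]
      exact Finset.mem_insert_of_mem (Finset.mem_union_right _ hv)
  · have hsub : c.edges \ {y} ⊆ g.hedges ∩ insert x A := by
      intro e he
      rw [Finset.mem_sdiff, Finset.mem_singleton] at he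
      refine Finset.mem_inter.2 ⟨Finset.mem_union_left _ (by rw [hg]; exact he.1), ?_⟩
      by_contra hne
      have : e ∈ c.edges \ insert x A := Finset.mem_sdiff.2 ⟨he.1, hne⟩
      rw [h5, Finset.mem_singleton] at this
      exact he.2 this
    have hcard : c.edges.card = Fintype.card I + 2 := by
      unfold RC.edges
      rw [Finset.card_insert_of_notMem, Finset.card_insert_of_notMem, hcs c]
      · exact (hgab c).2.1
      · rw [Finset.mem_insert]
        rintro (h | h)
        · exact (hgab c).2.2 h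
        · exact (hgab c).1 h
    have h6 := Finset.card_le_card hsub
    rw [Finset.card_sdiff_of_subset (by simpa using h2), hcard, Finset.card_singleton] at h6
    omega

theorem step_A (hC : S_CARD) (hE : S_EXT) (hH : S_THR) (hL3 : S_L3) (hL4 : S_L4)
    (h : FInv p N0 Y Y' A B Qu Te Fo) (hQ : Qu.card ≤ Fintype.card I) (hQ' : Qu ⊆ N0)
    (c : RC p) (hc : c.coreS ⊆ B) (ho : Ori c Y Y') (hxA : x ∉ A) (hxB : x ∉ B) :
    Concl p A B x := by
  classical
  refine ⟨no_HC h.1 hxA hxB, ?_⟩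
  have hQN : (Qu \ N0).card = 0 := by
    rw [Finset.sdiff_eq_empty_iff_subset.2 hQ', Finset.card_empty]
  have hr := p.r_ge
  by_cases hq : ∀ c y, ¬ Thr p (insert x A) B c y
  · have h1 : (insert x Qu).card ≤ Qu.card + 1 := quiet_card
    have h2 : (insert x Qu \ N0).card ≤ (Qu \ N0).card + 1 := quiet_card'
    have h3 := quiet h hxA hxB hq (by omega) (by omega)
    obtain ⟨y, hy1, hy2, hy3, hy4⟩ := opening hC h3 (by omega) (by omega) c hc ho
    exact ⟨y, hy1, hy2, hy3, Or.inl (Or.inr (Or.inr (Or.inl hy4)))⟩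
  · push Not at hq
    obtain ⟨c0, y, hy⟩ := hq
    have hyk : y.card = p.k := by
      obtain ⟨-, -, -, -, -, -, hk⟩ := hC I p
      exact hk c0 y (hH I p A B x y c0 h.1.hAB h.1.nt hxA hxB hy).2.1
    by_cases hs : ∀ c' y', Thr p (insert x A) B c' y' → y' = y
    · obtain ⟨h3, -⟩ := hL3 I p N0 Y Y' A B Qu Te Fo x y c0 h hxA hxB hy hs
      refine ⟨y, hyk, hy.1, hy.2.1, Or.inl (Or.inr (Or.inl ?_))⟩
      exact ⟨N0, Y, Y', Qu, _, Fo, h3, hQ, hQ', c, hc.trans (Finset.subset_insert _ _), ho⟩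
    · exfalso
      push Not at hs
      obtain ⟨c', y', hy', hne⟩ := hs
      obtain ⟨g, hg1, hg2⟩ := big_copy hC hE hH h.1 hxA hxB c0 hy
      have := hL4 I p N0 Y Y' A B Qu Te Fo x y y' c0 c' h hxA hxB hy hy' (Ne.symm hne) g hg1
      omega

/-- completing the gadget -/
theorem complete_edges {c : RC p} (ho : Ori c Y Y') (hc : c.coreS ⊆ B) (h1 : insert c.z Y' ∈ B) :
    c.edges ⊆ insert (insert c.z Y) B := by
  intro e he
  simp only [RC.edges, Finset.mem_insert] at he
  rcases ho with ⟨rfl, rfl⟩ | ⟨rfl, rfl⟩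
  · rcases he with rfl | rfl | he
    · exact Finset.mem_insert_self _ _
    · exact Finset.mem_insert_of_mem h1
    · exact Finset.mem_insert_of_mem (hc he)
  · rcases he with rfl | rfl | he
    · exact Finset.mem_insert_of_mem h1
    · exact Finset.mem_insert_self _ _
    · exact Finset.mem_insert_of_mem (hc he)

theorem half_card (hC : S_CARD) {c : RC p} (ho : Ori c Y Y') : (insert c.z Y).card = p.k := by
  obtain ⟨-, -, -, -, -, -, hk⟩ := hC I p
  rcases ho with ⟨rfl, rfl⟩ | ⟨rfl, rfl⟩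
  · exact hk c c.ga (by simp [RC.edges])
  · exact hk c c.gb (by simp [RC.edges])

theorem step_B (hC : S_CARD) (hH : S_THR) (hL2 : S_L2) (hL3 : S_L3) (hL4 : S_L4)
    (hF : S_FLEX) (h : FInv p N0 Y Y' A B Qu Te Fo) (hQ : Qu.card ≤ Fintype.card I + 1)
    (hQ' : (Qu \ N0).card ≤ 1) (c : RC p) (hc : c.coreS ⊆ B) (ho : Ori c Y Y')
    (h1 : insert c.z Y' ∈ B) (h2 : insert c.z Y ∉ A) (h3 : insert c.z Y ∉ B)
    (h4 : ∀ g ∈ N0, c.z ∉ g) (hxA : x ∉ A) (hxB : x ∉ B) :
    Concl p A B x := by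
  classical
  refine ⟨no_HC h.1 hxA hxB, ?_⟩
  have hr := p.r_ge
  have hr0 : 0 < p.r := by omega
  have hzY : c.z ∉ Y ∧ c.z ∉ Y' := by
    have hz1 : c.z ∉ c.PP := by
      simp only [RC.PP, Finset.mem_biUnion, Finset.mem_univ, true_and, Finset.mem_sdiff]
      rintro ⟨i, hi, -⟩
      exact c.zX i hi
    have hz2 : c.z ∉ c.QQ := by
      simp only [RC.QQ, Finset.mem_biUnion, Finset.mem_univ, true_and]
      rintro ⟨i, hi⟩
      exact c.zX i (c.TX i hi)
    rcases ho with ⟨rfl, rfl⟩ | ⟨rfl, rfl⟩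
    · exact ⟨hz1, hz2⟩
    · exact ⟨hz2, hz1⟩
  by_cases hxp : x = insert c.z Y
  · -- the partner is taken: forced
    have hfo : FoOK N0 Y Y' B x := ⟨c.z, hxp, h1, hzY.1, hzY.2, h4⟩
    have h5 := hL2 I p N0 Y Y' A B Qu Te Fo x h hxA hxB hfo
    obtain ⟨y, hy1, hy2, hy3, hy4⟩ := opening hC h5 hQ hQ' c hc ho
    exact ⟨y, hy1, hy2, hy3, Or.inl (Or.inr (Or.inr (Or.inl hy4)))⟩
  · have hpx : insert c.z Y ∉ insert x A := by
      intro h
      rcases Finset.mem_insert.1 h with h | h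
      · exact hxp h.symm
      · exact h2 h
    by_cases hq : ∀ c y, ¬ Thr p (insert x A) B c y
    · -- quiet: complete
      have h5 : (insert x Qu).card ≤ Qu.card + 1 := quiet_card
      have h6 : (insert x Qu \ N0).card ≤ (Qu \ N0).card + 1 := quiet_card'
      have h7 := quiet h hxA hxB hq (by omega) (by omega)
      refine ⟨insert c.z Y, half_card hC ho, hpx, h3, Or.inl (Or.inr (Or.inr (Or.inr
        (Or.inl ⟨0, hr0, N0, Y, Y', insert x Qu, Te, Fo, h7.mono hpx, by omega, by omega,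
          c, complete_edges ho hc h1, (hF I p N0 c).1 _ _⟩))))⟩
    · push Not at hq
      obtain ⟨c0, y, hy⟩ := hq
      have hyk : y.card = p.k := by
        obtain ⟨-, -, -, -, -, -, hk⟩ := hC I p
        exact hk c0 y (hH I p A B x y c0 h.1.hAB h.1.nt hxA hxB hy).2.1
      by_cases hs : ∀ c' y', Thr p (insert x A) B c' y' → y' = y
      · obtain ⟨h5, -⟩ := hL3 I p N0 Y Y' A B Qu Te Fo x y c0 h hxA hxB hy hs
        by_cases hyp : y = insert c.z Y
        · refine ⟨y, hyk, hy.1, hy.2.1, Or.inl (Or.inr (Or.inr (Or.inr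
            (Or.inl ⟨0, hr0, N0, Y, Y', Qu, _, Fo, h5, by omega, by omega,
              c, ?_, (hF I p N0 c).1 _ _⟩))))⟩
          rw [hyp]
          exact complete_edges ho hc h1
        · refine ⟨y, hyk, hy.1, hy.2.1, Or.inl (Or.inr (Or.inr (Or.inl
            ⟨N0, Y, Y', Qu, _, Fo, h5, hQ, hQ', c, hc.trans (Finset.subset_insert _ _), ho,
              Finset.mem_insert_of_mem h1, hpx, ?_, h4⟩)))⟩
          intro h
          rcases Finset.mem_insert.1 h with h | h
          · exact hyp h.symm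
          · exact h3 h
      · push Not at hs
        obtain ⟨c', y', hy', hne⟩ := hs
        have h8 := hL4 I p N0 Y Y' A B Qu Te Fo x y y' c0 c' h hxA hxB hy hy' (Ne.symm hne)
        refine ⟨insert c.z Y, half_card hC ho, hpx, h3, Or.inl (Or.inr (Or.inr (Or.inr
          (Or.inr ⟨0, hr0, ?_, ?_, N0, c, complete_edges ho hc h1, (hF I p N0 c).1 _ _⟩))))⟩
        · rw [Finset.disjoint_insert_left, Finset.disjoint_insert_right]
          refine ⟨?_, h2, h.1.hAB⟩
          intro h
          rcases Finset.mem_insert.1 h with h | h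
          · exact hxp h
          · exact hxB h
        · intro g hg
          have := h8 g (Finset.disjoint_of_subset_right (Finset.subset_insert _ _) hg)
          omega

theorem step_C (hC : S_CARD) (hH : S_THR) (hL3 : S_L3) (hL4 : S_L4)
    (hF : S_FLEX) {u : ℕ} (hu : u < p.r) (h : FInv p N0 Y Y' A B Qu Te Fo)
    (hQ : Qu.card ≤ Fintype.card I + 2 + u)
    (hQ' : (Qu \ N0).card ≤ 2 + u) (c : RC p) (hc : c.edges ⊆ B)
    (hfl : FlexSt p N0 c u A B) (hxA : x ∉ A) (hxB : x ∉ B) :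
    Concl p A B x := by
  classical
  refine ⟨no_HC h.1 hxA hxB, ?_⟩
  by_cases hq : ∀ c y, ¬ Thr p (insert x A) B c y
  · obtain ⟨y, hy1, hy2, hy3, hy4⟩ := (hF I p N0 c).2.1 u A B x hu hfl
    refine ⟨y, hy1, hy2, hy3, ?_⟩
    by_cases hur : u + 1 = p.r
    · right
      rw [hur] at hy4
      exact (hF I p N0 c).2.2.2 _ _ hy4 (hc.trans (Finset.subset_insert _ _))
    · left
      have h5 : (insert x Qu).card ≤ Qu.card + 1 := quiet_card
      have h6 : (insert x Qu \ N0).card ≤ (Qu \ N0).card + 1 := quiet_card'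
      have h7 := quiet h hxA hxB hq (by omega) (by omega)
      exact Or.inr (Or.inr (Or.inr (Or.inl ⟨u + 1, by omega, N0, Y, Y', insert x Qu, Te, Fo,
        h7.mono hy2, by omega, by omega, c, hc.trans (Finset.subset_insert _ _), hy4⟩)))
  · push Not at hq
    obtain ⟨c0, y, hy⟩ := hq
    have hthr := hH I p A B x y c0 h.1.hAB h.1.nt hxA hxB hy
    have hyk : y.card = p.k := by
      obtain ⟨-, -, -, -, -, -, hk⟩ := hC I p
      exact hk c0 y hthr.2.1
    by_cases hs : ∀ c' y', Thr p (insert x A) B c' y' → y' = y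
    · obtain ⟨h5, hcov⟩ := hL3 I p N0 Y Y' A B Qu Te Fo x y c0 h hxA hxB hy hs
      refine ⟨y, hyk, hy.1, hy.2.1, Or.inl (Or.inr (Or.inr (Or.inr (Or.inl ⟨u, hu, N0, Y, Y',
        Qu, _, Fo, h5, hQ, hQ', c, hc.trans (Finset.subset_insert _ _), ?_⟩))))⟩
      exact (hF I p N0 c).2.2.1 u A B x y hfl ⟨c0, hthr.1, hthr.2.1, hcov⟩
    · push Not at hs
      obtain ⟨c', y', hy', hne⟩ := hs
      have h8 := hL4 I p N0 Y Y' A B Qu Te Fo x y y' c0 c' h hxA hxB hy hy' (Ne.symm hne)
      obtain ⟨y, hy1, hy2, hy3, hy4⟩ := (hF I p N0 c).2.1 u A B x hu hfl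
      refine ⟨y, hy1, hy2, hy3, ?_⟩
      by_cases hur : u + 1 = p.r
      · right
        rw [hur] at hy4
        exact (hF I p N0 c).2.2.2 _ _ hy4 (hc.trans (Finset.subset_insert _ _))
      · left
        refine Or.inr (Or.inr (Or.inr (Or.inr ⟨u + 1, by omega, ?_, ?_, N0, c,
          hc.trans (Finset.subset_insert _ _), hy4⟩)))
        · rw [Finset.disjoint_insert_left, Finset.disjoint_insert_right]
          refine ⟨?_, fun h => hy2 (Finset.mem_insert_of_mem h), h.1.hAB⟩
          intro h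
          rcases Finset.mem_insert.1 h with h | h
          · exact hy2 (by rw [h]; exact Finset.mem_insert_self _ _)
          · exact hxB h
        · intro g hg
          have := h8 g (Finset.disjoint_of_subset_right (Finset.subset_insert _ _) hg)
          omega

theorem step_E (hC : S_CARD) (hF : S_FLEX) {u : ℕ} (h : ME p u A B) (hxB : x ∉ B) :
    Concl p A B x := by
  classical
  obtain ⟨hu, hAB, hb, N0, c, hc, hfl⟩ := h
  have hcard : ∀ g : HC p, (g.hedges ∩ insert x A).card ≤ (g.hedges ∩ A).card + 1 := by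
    intro g
    refine le_trans (Finset.card_le_card (t := insert x (g.hedges ∩ A)) ?_)
      (Finset.card_insert_le _ _)
    intro e he
    simp only [Finset.mem_inter, Finset.mem_insert] at he ⊢
    tauto
  refine ⟨?_, ?_⟩
  · rintro ⟨g, hg⟩
    have hdis : Disjoint g.hedges B := by
      rw [Finset.disjoint_left]
      intro e he heB
      rcases Finset.mem_insert.1 (hg he) with h | h
      · exact hxB (h ▸ heB)
      · exact Finset.disjoint_left.1 hAB h heB
    have h1 := hb g hdis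
    have h2 := hcard g
    rw [Finset.inter_eq_left.2 hg] at h2
    obtain ⟨-, -, -, -, hk, -, -⟩ := hC I p
    have h3 := hk g
    omega
  · obtain ⟨y, hy1, hy2, hy3, hy4⟩ := (hF I p N0 c).2.1 u A B x hu hfl
    refine ⟨y, hy1, hy2, hy3, ?_⟩
    by_cases hur : u + 1 = p.r
    · right
      rw [hur] at hy4
      exact (hF I p N0 c).2.2.2 _ _ hy4 (hc.trans (Finset.subset_insert _ _))
    · left
      refine Or.inr (Or.inr (Or.inr (Or.inr ⟨u + 1, by omega, ?_, ?_, N0, c,
        hc.trans (Finset.subset_insert _ _), hy4⟩)))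
      · rw [Finset.disjoint_insert_left, Finset.disjoint_insert_right]
        refine ⟨?_, fun h => hy2 (Finset.mem_insert_of_mem h), hAB⟩
        intro h
        rcases Finset.mem_insert.1 h with h | h
        · exact hy2 (by rw [h]; exact Finset.mem_insert_self _ _)
        · exact hxB h
      · intro g hg
        have h1 := hb g (Finset.disjoint_of_subset_right (Finset.subset_insert _ _) hg)
        have h2 := hcard g
        omega

/-- changing one block partition -/
def RC.setT (c : RC p) (j : I) (T : Finset ℕ) (h1 : T ⊆ c.X j) (h2 : T.card = p.q j) : RC p :=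
  { c with
    T := Function.update c.T j T
    cT := by
      intro i
      by_cases h : i = j
      · subst h; simpa using h2
      · rw [Function.update_of_ne h]; exact c.cT i
    TX := by
      intro i
      by_cases h : i = j
      · subst h; simpa using h1
      · rw [Function.update_of_ne h]; exact c.TX i }

theorem core_inter (c : RC p) (j : I) : c.core j ∩ c.X j = c.T j := by
  ext v
  simp only [RC.core, Finset.mem_inter, Finset.mem_union, Finset.mem_biUnion]
  constructor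
  · rintro ⟨h | h | ⟨l, hl, hv⟩, hx⟩
    · exact absurd hx (Finset.disjoint_left.1 (c.FX j) h)
    · exact h
    · have hne : l ≠ j := by
        rintro rfl
        exact p.N_irr _ hl
      exact absurd hx (Finset.disjoint_left.1 (c.XX l j hne) hv)
  · intro h
    exact ⟨Or.inr (Or.inl h), c.TX j h⟩

theorem step_1 (hC : S_CARD) (hS : S_SPLIT) {i : ℕ} (hi : i < Fintype.card I)
    (hA : A.card = i) (hB : B.card = i) (hAB : Disjoint A B) (c : RC p)
    (Ach : I → Finset (Finset ℕ)) (hch : ∀ j, ix j < i →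
      c.core j ∈ B ∧ Ach j ⊆ A ∧ (Ach j).card = ix j + 1 ∧ Split (Ach j) p.big (c.X j) (c.T j))
    (hxA : x ∉ A) (hxB : x ∉ B) : Concl p A B x := by
  classical
  obtain ⟨-, -, -, -, hk, -, hkk⟩ := hC I p
  refine ⟨?_, ?_⟩
  · rintro ⟨g, hg⟩
    have h1 := Finset.card_le_card hg
    rw [hk g, Finset.card_insert_of_notMem hxA, hA] at h1
    omega
  · let j : I := (Fintype.equivFin I).symm ⟨i, hi⟩
    have hj : ix j = i := by simp [ix, j]
    have hjne : ∀ l, ix l < i → l ≠ j := by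
      rintro l hl rfl
      omega
    have hcA : (insert x A).card = i + 1 := by
      rw [Finset.card_insert_of_notMem hxA, hA]
    obtain ⟨T, hTX, hTq, hTF, hTS⟩ := hS (Fintype.card I) p.big (p.q j) (c.X j) (insert x A)
      ((insert x A ∪ B).image (fun e => e ∩ c.X j)) (by omega)
      (by
        refine Finset.card_image_le.trans ((Finset.card_union_le _ _).trans ?_)
        omega) p.big_ge (p.hl_ge.trans (p.q_hl j))
      (by
        rw [c.cX j]
        have h1 := p.hl_ge.trans (p.p_hl j)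
        have h2 := p.q_le j
        omega)
    let c' := c.setT j T hTX hTq
    have hcT : c'.T j = T := by simp [c', RC.setT]
    have hcX : c'.X = c.X := rfl
    have hnot : c'.core j ∉ insert x A ∪ B := by
      intro h
      apply hTF
      rw [Finset.mem_image]
      refine ⟨_, h, ?_⟩
      rw [← hcX, core_inter, hcT]
    have hcard : (c'.core j).card = p.k := hkk c' _ (by simp [RC.edges, RC.coreS])
    refine ⟨c'.core j, hcard, fun h => hnot (Finset.mem_union_left _ h),
      fun h => hnot (Finset.mem_union_right _ h), Or.inl (Or.inl ?_)⟩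
    have hyB : c'.core j ∉ B := fun h => hnot (Finset.mem_union_right _ h)
    have hyA : c'.core j ∉ insert x A := fun h => hnot (Finset.mem_union_left _ h)
    refine ⟨i + 1, hi, hcA, ?_, ?_, c', Function.update Ach j (insert x A), ?_⟩
    · rw [Finset.card_insert_of_notMem hyB, hB]
    · rw [Finset.disjoint_insert_right, Finset.disjoint_insert_left]
      exact ⟨hyA, hxB, hAB⟩
    · intro l hl
      by_cases hlj : l = j
      · subst hlj
        refine ⟨Finset.mem_insert_self _ _, ?_, ?_, ?_⟩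
        · simp
        · simp only [Function.update_self]
          rw [hcA, hj]
        · simp only [Function.update_self]
          rw [hcT]
          exact hTS
      · have hl' : ix l < i := by
          have : ix l ≠ i := by
            intro h
            apply hlj
            rw [← hj] at h
            exact (Fintype.equivFin I).injective (Fin.ext h)
          omega
        obtain ⟨h1, h2, h3, h4⟩ := hch l hl'
        have hT : c'.T l = c.T l := by simp [c', RC.setT, Function.update_of_ne hlj]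
        have hcore : c'.core l = c.core l := by
          simp only [RC.core, hT]
          rfl
        rw [Function.update_of_ne hlj, hcore, hT]
        exact ⟨Finset.mem_insert_of_mem h1, h2.trans (Finset.subset_insert _ _), h3, h4⟩

theorem step_1' (hC : S_CARD) (hE : S_EXT) (hH : S_THR) (hL3 : S_L3) (hL4 : S_L4)
    (hFP : S_FPROP) (hYP : S_YP)
    (hA : A.card = Fintype.card I) (hAB : Disjoint A B) (c : RC p)
    (Ach : I → Finset (Finset ℕ)) (hch : ∀ j, ix j < Fintype.card I →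
      c.core j ∈ B ∧ Ach j ⊆ A ∧ (Ach j).card = ix j + 1 ∧ Split (Ach j) p.big (c.X j) (c.T j))
    (hxA : x ∉ A) (hxB : x ∉ B) : Concl p A B x := by
  classical
  obtain ⟨hcs, hgab, -, -, -, -, -⟩ := hC I p
  have hix : ∀ j : I, ix j < Fintype.card I := fun j => (Fintype.equivFin I j).2
  have hN0 : (insert x A).card ≤ Fintype.card I + 1 := by
    rw [Finset.card_insert_of_notMem hxA, hA]
  have h1 := hFP I p c Ach (insert x A) hN0
    (fun j => (hch j (hix j)).2.1.trans (Finset.subset_insert _ _))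
    (fun j => (hch j (hix j)).2.2.1) (fun j => (hch j (hix j)).2.2.2)
  have h2 := hYP I p c (insert x A) hN0 h1
  obtain ⟨Y, Y', hY, ho⟩ : ∃ Y Y', YProp p (insert x A) Y Y' ∧ Ori c Y Y' := by
    rcases h2 with h2 | h2
    · exact ⟨_, _, h2, Or.inl ⟨rfl, rfl⟩⟩
    · exact ⟨_, _, h2, Or.inr ⟨rfl, rfl⟩⟩
  have hcard : ∀ c : RC p, c.edges.card = Fintype.card I + 2 := by
    intro c
    unfold RC.edges
    rw [Finset.card_insert_of_notMem, Finset.card_insert_of_notMem, hcs c]
    · exact (hgab c).2.1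
    · rw [Finset.mem_insert]
      rintro (h | h)
      · exact (hgab c).2.2 h
      · exact (hgab c).1 h
  have hinv : FInv p (insert x A) Y Y' A B A ∅ ∅ := by
    refine ⟨⟨by simp, hAB, hN0, ?_, by omega, by omega, ⟨?_, ?_⟩, hY, by simp⟩, Or.inl rfl⟩
    · rw [Finset.sdiff_eq_empty_iff_subset.2 (Finset.subset_insert _ _), Finset.card_empty]
      omega
    · intro c' y hy
      have h3 := Finset.card_le_card hy.2.2
      rw [hcard, Finset.card_insert_of_notMem hy.1] at h3
      omega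
    · intro c' hc'
      have h3 := Finset.card_le_card hc'
      rw [hcard] at h3
      omega
  refine step_A hC hE hH hL3 hL4 hinv (by omega) (Finset.subset_insert _ _) c ?_ ho hxA hxB
  intro e he
  obtain ⟨j, -, rfl⟩ := Finset.mem_image.1 he
  exact (hch j (hix j)).1

/-- the assembly -/
theorem main (hX : S_EX) (hC : S_CARD) (hE : S_EXT) (hS : S_SPLIT) (hFP : S_FPROP) (hYP : S_YP)
    (hH : S_THR) (hL2 : S_L2) (hL3 : S_L3) (hL4 : S_L4) (hF : S_FLEX) : S_MAIN := by
  intro I _ _ p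
  refine ⟨Good p, ?_, ?_⟩
  · obtain ⟨h0⟩ := hX I p
    exact Or.inl ⟨0, Nat.zero_le _, rfl, rfl, Finset.disjoint_empty_left _, h0.toRC,
      fun _ => ∅, fun j hj => absurd hj (Nat.not_lt_zero _)⟩
  · intro A B hG x _ hxA hxB
    change Concl p A B x
    rcases hG with h | h | h | ⟨u, h⟩ | ⟨u, h⟩
    · obtain ⟨i, hi, hA, hB, hAB, c, Ach, hch⟩ := h
      rcases hi.lt_or_eq with hi | hi
      · exact step_1 hC hS hi hA hB hAB c Ach hch hxA hxB
      · subst hi
        exact step_1' hC hE hH hL3 hL4 hFP hYP hA hAB c Ach hch hxA hxB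
    · obtain ⟨N0, Y, Y', Qu, Te, Fo, hF, hQ, hQ', c, hc, ho⟩ := h
      exact step_A hC hE hH hL3 hL4 hF hQ hQ' c hc ho hxA hxB
    · obtain ⟨N0, Y, Y', Qu, Te, Fo, hI, hQ, hQ', c, hc, ho, h1, h2, h3, h4⟩ := h
      exact step_B hC hH hL2 hL3 hL4 hF hI hQ hQ' c hc ho h1 h2 h3 h4 hxA hxB
    · obtain ⟨hu, N0, Y, Y', Qu, Te, Fo, hI, hQ, hQ', c, hc, hfl⟩ := h
      exact step_C hC hH hL3 hL4 hF hu hI hQ hQ' c hc hfl hxA hxB
    · exact step_E hC hF h hxB

end Pool.Agent.W317.DR
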