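import Pool.Agent.W317.DR.Defs

/-!
The statements of the lemmas of the proof of S10231 (drawn strong Ramsey games of large minimum
degree), as propositions.  Nothing is proved here.
-/

set_option autoImplicit false

namespace Pool.Agent.W317.DR

/-- game lemma: an invariant of the second player refutes every strategy of the first player -/
def S_GL : Prop :=
  ∀ (k n : ℕ) (H : Finset (Finset (Fin n)))
    (Good : Finset (Finset ℕ) → Finset (Finset ℕ) → Prop),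
    Good ∅ ∅ →
    (∀ A B, Good A B → ∀ x : Finset ℕ, x.card = k → x ∉ A → x ∉ B →
      ¬ HasCopy H (insert x A) ∧
      ∃ y : Finset ℕ, y.card = k ∧ y ∉ insert x A ∧ y ∉ B ∧
        (Good (insert x A) (insert y B) ∨ HasCopy H (insert y B))) →
    (¬ ∃ s : List (Finset ℕ) → Finset ℕ, ∀ m : ℕ → Finset ℕ,
        (∀ i : ℕ, Even i → m i = s (List.ofFn (fun j : Fin i => m j))) →
        (∀ i : ℕ, Odd i → (m i).card = k ∧ ∀ j < i, m j ≠ m i) →
        ∃ N : ℕ, Even N ∧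
          (∀ i ≤ N, Even i → (m i).card = k ∧ ∀ j < i, m j ≠ m i) ∧
          (∃ f : Fin n → ℕ, Function.Injective f ∧
              ∀ e ∈ H, ∃ i ≤ N, Even i ∧ m i = e.image f) ∧
          ¬ (∃ f : Fin n → ℕ, Function.Injective f ∧
              ∀ e ∈ H, ∃ i < N, Odd i ∧ m i = e.image f))

/-- strategy stealing: the second player has no winning strategy -/
def S_SL : Prop :=
  ∀ (k n : ℕ) (H : Finset (Finset (Fin n))), 1 ≤ k → H.Nonempty → (∀ e ∈ H, e.card = k) →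
    (¬ ∃ t : List (Finset ℕ) → Finset ℕ, ∀ m : ℕ → Finset ℕ,
        (∀ i : ℕ, Odd i → m i = t (List.ofFn (fun j : Fin i => m j))) →
        (∀ i : ℕ, Even i → (m i).card = k ∧ ∀ j < i, m j ≠ m i) →
        ∃ N : ℕ, Odd N ∧
          (∀ i ≤ N, Odd i → (m i).card = k ∧ ∀ j < i, m j ≠ m i) ∧
          (∃ f : Fin n → ℕ, Function.Injective f ∧
              ∀ e ∈ H, ∃ i ≤ N, Odd i ∧ m i = e.image f) ∧
          ¬ (∃ f : Fin n → ℕ, Function.Injective f ∧
              ∀ e ∈ H, ∃ i < N, Even i ∧ m i = e.image f))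

/-- parameters exist -/
def S_PAR : Prop :=
  ∀ r : ℕ, 2 ≤ r → ∃ (L : ℕ) (p : Par (Fin L × Fin L)), p.r = r

/-- the abstract hypergraph attached to the parameters -/
def S_TR : Prop :=
  ∀ (I : Type) [Fintype I] [DecidableEq I] (p : Par I),
    ∃ (n : ℕ) (H : Finset (Finset (Fin n))), 0 < n ∧ H.Nonempty ∧
      (∀ e ∈ H, e.card = p.k) ∧
      (∀ v : Fin n, p.r - 1 ≤ (H.filter (fun e => v ∈ e)).card) ∧
      (∀ A : Finset (Finset ℕ), HasCopy H A ↔ HasHC p A)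

/-- copies exist -/
def S_EX : Prop :=
  ∀ (I : Type) [Fintype I] [DecidableEq I] (p : Par I), Nonempty (HC p)

/-- cardinalities -/
def S_CARD : Prop :=
  ∀ (I : Type) [Fintype I] [DecidableEq I] (p : Par I),
    (∀ c : RC p, c.coreS.card = Fintype.card I) ∧
    (∀ c : RC p, c.ga ∉ c.coreS ∧ c.gb ∉ c.coreS ∧ c.ga ≠ c.gb) ∧
    (∀ h : HC p, ∀ s, h.flex s ∉ h.toRC.edges) ∧
    (∀ h : HC p, Function.Injective h.flex) ∧
    (∀ h : HC p, h.hedges.card = Fintype.card I + 2 + p.r) ∧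
    (∀ h : HC p, ∀ e ∈ h.hedges, e.card = p.k) ∧
    (∀ c : RC p, ∀ e ∈ c.edges, e.card = p.k)

/-- two distinct edges of one copy of `H` differ a lot -/
def S_DEL : Prop :=
  ∀ (I : Type) [Fintype I] [DecidableEq I] (p : Par I) (h : HC p),
    ∀ e ∈ h.hedges, ∀ e' ∈ h.hedges, e ≠ e' → (6 * p.r + 30) * p.hh + 1 < (e \ e').card

/-- every copy of `R` extends to a copy of `H` with new vertices -/
def S_EXT : Prop :=
  ∀ (I : Type) [Fintype I] [DecidableEq I] (p : Par I) (c : RC p) (V : Finset ℕ),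
    ∃ h : HC p, h.toRC = c ∧ Disjoint h.W V

/-- alignment: two copies sharing most core edges have the same frame -/
def S_AL : Prop :=
  ∀ (I : Type) [Fintype I] [DecidableEq I] (p : Par I) (c c' : RC p),
    Fintype.card I ≤ (c.coreS ∩ c'.coreS).card + (4 * p.r + 20) → c.SameFr c'

/-- intersection types of edges inside one frame -/
def S_TYPE : Prop :=
  ∀ (I : Type) [Fintype I] [DecidableEq I] (p : Par I) (c c' : RC p), c.SameFr c' →
    c.ga ≠ c'.gb ∧ c.ga ∉ c'.coreS ∧ c.gb ∉ c'.coreS ∧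
    (c.ga = c'.ga → c = c') ∧ (c.gb = c'.gb → c = c') ∧
    (∀ i j, c.core i = c'.core j → i = j ∧ c.T i = c'.T i)

/-- similar gadget edges -/
def S_SIM : Prop :=
  ∀ (I : Type) [Fintype I] [DecidableEq I] (p : Par I) (c c' : RC p), c.SameFr c' →
    Fintype.card I ≤ (c.coreS ∩ c'.coreS).card + (6 * p.r + 30) →
    (c.ga \ c'.ga).card ≤ (6 * p.r + 30) * p.hh + 1 ∧
    (c.gb \ c'.gb).card ≤ (6 * p.r + 30) * p.hh + 1

/-- intersections of many core edges, and covering by few missing core edges -/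
def S_COV : Prop :=
  ∀ (I : Type) [Fintype I] [DecidableEq I] (p : Par I) (c : RC p),
    (∀ G : Finset (Finset ℕ), p.D + 2 ≤ (c.coreS ∩ G).card →
      ∀ v : ℕ, (∀ e ∈ c.coreS ∩ G, v ∈ e) ↔ v ∈ c.F) ∧
    (∀ N0 : Finset (Finset ℕ), Pot p N0 c → ∀ v ∈ c.F ∪ c.U, ∃ g ∈ N0, v ∈ g)

/-- the splitting choice -/
def S_SPLIT : Prop :=
  ∀ (b big q : ℕ) (X : Finset ℕ) (G : Finset (Finset ℕ)) (Forb : Finset (Finset ℕ)),
    G.card ≤ b → Forb.card ≤ 2 * b + 2 → 2 ^ (b + 3) ≤ big →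
    2 ^ (b + 3) + 4 * b + 5 ≤ q → q + (2 ^ (b + 3) + 4 * b + 5) ≤ X.card →
    ∃ T ⊆ X, T.card = q ∧ T ∉ Forb ∧ Split G big X T

/-- potential copies have a kernel that is not contained in a half of the second player's blocks -/
def S_FPROP : Prop :=
  ∀ (I : Type) [Fintype I] [DecidableEq I] (p : Par I) (c : RC p)
    (Ach : I → Finset (Finset ℕ)) (N0 : Finset (Finset ℕ)),
    N0.card ≤ Fintype.card I + 1 →
    (∀ i, Ach i ⊆ N0) → (∀ i, (Ach i).card = ix i + 1) →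
    (∀ i, Split (Ach i) p.big (c.X i) (c.T i)) →
    ∀ c' : RC p, Pot p N0 c' → ¬ c'.F ⊆ c.QQ ∧ ¬ c'.F ⊆ c.PP

/-- orientation of the two halves -/
def S_YP : Prop :=
  ∀ (I : Type) [Fintype I] [DecidableEq I] (p : Par I) (c : RC p) (N0 : Finset (Finset ℕ)),
    N0.card ≤ Fintype.card I + 1 →
    (∀ c' : RC p, Pot p N0 c' → ¬ c'.F ⊆ c.QQ ∧ ¬ c'.F ⊆ c.PP) →
    YProp p N0 c.PP c.QQ ∨ YProp p N0 c.QQ c.PP

/-- a forced edge lies in no unblocked copy near a potential copy -/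
def S_CL0 : Prop :=
  ∀ (I : Type) [Fintype I] [DecidableEq I] (p : Par I) (N0 : Finset (Finset ℕ))
    (Y Y' : Finset ℕ) (B : Finset (Finset ℕ)) (c1 : RC p) (h : HC p) (e : Finset ℕ),
    YProp p N0 Y Y' → Pot p N0 c1 → h.toRC.SameFr c1 → FoOK N0 Y Y' B e →
    e ∉ h.toRC.coreS ∧ (∀ s, e ≠ h.flex s) ∧ (Disjoint h.toRC.edges B → e ∉ h.hedges)

/-- counting the first player's edges in an arbitrary copy -/
def S_CNT : Prop :=
  ∀ (I : Type) [Fintype I] [DecidableEq I] (p : Par I) (N0 : Finset (Finset ℕ))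
    (Y Y' : Finset ℕ) (A B Qu Te Fo : Finset (Finset ℕ)) (c1 : RC p) (ρ : Finset ℕ → RC p),
    Inv p N0 Y Y' A B Qu Te Fo → TeI p N0 A B Qu Te c1 ρ →
    (Te.filter (fun t => t ∈ (ρ t).coreS)).card ≤ (Qu \ c1.coreS).card ∧
    (Qu \ c1.coreS).card ≤ p.r + 3 ∧
    (∀ h : HC p, (h.hedges ∩ Fo).card ≤ 1) ∧
    (∀ h : HC p, (h.hedges ∩ Te.filter (fun t => t ∉ (ρ t).coreS)).card ≤ 2)

/-- near copies: a copy of `R` with most core edges at the first player has the reference frame -/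
def S_NEAR : Prop :=
  ∀ (I : Type) [Fintype I] [DecidableEq I] (p : Par I) (N0 : Finset (Finset ℕ))
    (Y Y' : Finset ℕ) (A B Qu Te Fo : Finset (Finset ℕ)) (c1 : RC p) (ρ : Finset ℕ → RC p)
    (x : Finset ℕ),
    Inv p N0 Y Y' A B Qu Te Fo → TeI p N0 A B Qu Te c1 ρ →
    ∀ c : RC p, Fintype.card I ≤ (c.coreS ∩ insert x A).card + (p.r + 2) → c.SameFr c1

/-- consequences of a threat arising after the move `x` -/
def S_THR : Prop :=
  ∀ (I : Type) [Fintype I] [DecidableEq I] (p : Par I) (A B : Finset (Finset ℕ))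
    (x y : Finset ℕ) (c : RC p),
    Disjoint A B → NoThr p A B → x ∉ A → x ∉ B → Thr p (insert x A) B c y →
    x ∈ c.edges ∧ y ∈ c.edges ∧ y ≠ x ∧ Disjoint c.edges B ∧ c.edges \ insert x A = {y} ∧
    (c.coreS \ insert x A).card ≤ 1 ∧ Fintype.card I ≤ (c.coreS ∩ insert x A).card + 1

/-- a first threat gives a reference copy -/
def S_REF : Prop :=
  ∀ (I : Type) [Fintype I] [DecidableEq I] (p : Par I) (N0 : Finset (Finset ℕ))
    (Y Y' : Finset ℕ) (A B Qu Fo : Finset (Finset ℕ)) (x y : Finset ℕ) (c : RC p)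
    (ρ : Finset ℕ → RC p),
    Inv p N0 Y Y' A B Qu ∅ Fo → x ∉ A → x ∉ B → Thr p (insert x A) B c y →
    TeI p N0 A B Qu ∅ c ρ

/-- the gadget edge of an unblocked copy whose core edge is claimed with a threat is quiet -/
def S_GQ : Prop :=
  ∀ (I : Type) [Fintype I] [DecidableEq I] (p : Par I) (N0 : Finset (Finset ℕ))
    (Y Y' : Finset ℕ) (A B Qu Te Fo : Finset (Finset ℕ)) (c1 : RC p) (ρ : Finset ℕ → RC p)
    (x y : Finset ℕ) (c : RC p),
    Inv p N0 Y Y' A B Qu Te Fo → TeI p N0 A B Qu Te c1 ρ →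
    x ∉ A → x ∉ B → Thr p (insert x A) B c y → x ∈ c.coreS →
    c.ga ∈ Qu ∨ c.gb ∈ Qu

/-- the forced move creates no threat -/
def S_L2 : Prop :=
  ∀ (I : Type) [Fintype I] [DecidableEq I] (p : Par I) (N0 : Finset (Finset ℕ))
    (Y Y' : Finset ℕ) (A B Qu Te Fo : Finset (Finset ℕ)) (x : Finset ℕ),
    FInv p N0 Y Y' A B Qu Te Fo → x ∉ A → x ∉ B → FoOK N0 Y Y' B x →
    FInv p N0 Y Y' (insert x A) B Qu Te (insert x Fo)

/-- a move creating exactly one threat, which is blocked -/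
def S_L3 : Prop :=
  ∀ (I : Type) [Fintype I] [DecidableEq I] (p : Par I) (N0 : Finset (Finset ℕ))
    (Y Y' : Finset ℕ) (A B Qu Te Fo : Finset (Finset ℕ)) (x y : Finset ℕ) (c : RC p),
    FInv p N0 Y Y' A B Qu Te Fo → x ∉ A → x ∉ B → Thr p (insert x A) B c y →
    (∀ c' y', Thr p (insert x A) B c' y' → y' = y) →
    FInv p N0 Y Y' (insert x A) (insert y B) Qu (insert x Te) Fo ∧
    (∀ v ∈ c.F ∪ c.U, ∃ g ∈ N0, v ∈ g)

/-- a move creating two threats -/
def S_L4 : Prop :=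
  ∀ (I : Type) [Fintype I] [DecidableEq I] (p : Par I) (N0 : Finset (Finset ℕ))
    (Y Y' : Finset ℕ) (A B Qu Te Fo : Finset (Finset ℕ)) (x y y' : Finset ℕ) (c c' : RC p),
    FInv p N0 Y Y' A B Qu Te Fo → x ∉ A → x ∉ B →
    Thr p (insert x A) B c y → Thr p (insert x A) B c' y' → y ≠ y' →
    ∀ h : HC p, Disjoint h.hedges B → (h.hedges ∩ insert x A).card ≤ Qu.card

/-- the flex state of the second player -/
def FlexSt {I : Type} [Fintype I] [DecidableEq I] (p : Par I) (N0 : Finset (Finset ℕ))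
    (c : RC p) (u : ℕ) (A B : Finset (Finset ℕ)) : Prop :=
  ∃ h : HC p, h.toRC = c ∧ (∀ s : Fin p.r, s.val < u → h.flex s ∈ B) ∧
    (∀ g ∈ N0, Disjoint h.W g) ∧
    ((A ∪ B).filter (fun e => 2 ≤ (e ∩ h.W).card)).card ≤ 2 * u

/-- the flex phase -/
def S_FLEX : Prop :=
  ∀ (I : Type) [Fintype I] [DecidableEq I] (p : Par I) (N0 : Finset (Finset ℕ)) (c : RC p),
    (∀ A B, FlexSt p N0 c 0 A B) ∧
    (∀ u A B x, u < p.r → FlexSt p N0 c u A B →
      ∃ y : Finset ℕ, y.card = p.k ∧ y ∉ insert x A ∧ y ∉ B ∧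
        FlexSt p N0 c (u + 1) (insert x A) (insert y B)) ∧
    (∀ u A B x y, FlexSt p N0 c u A B →
      (∃ c' : RC p, x ∈ c'.edges ∧ y ∈ c'.edges ∧ ∀ v ∈ c'.F ∪ c'.U, ∃ g ∈ N0, v ∈ g) →
      FlexSt p N0 c u (insert x A) (insert y B)) ∧
    (∀ A B, FlexSt p N0 c p.r A B → c.edges ⊆ B → HasHC p B)

/-- the final assembly at the level of set-level copies -/
def S_MAIN : Prop :=
  ∀ (I : Type) [Fintype I] [DecidableEq I] (p : Par I),
    ∃ Good : Finset (Finset ℕ) → Finset (Finset ℕ) → Prop,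
      Good ∅ ∅ ∧
      (∀ A B, Good A B → ∀ x : Finset ℕ, x.card = p.k → x ∉ A → x ∉ B →
        ¬ HasHC p (insert x A) ∧
        ∃ y : Finset ℕ, y.card = p.k ∧ y ∉ insert x A ∧ y ∉ B ∧
          (Good (insert x A) (insert y B) ∨ HasHC p (insert y B)))

end Pool.Agent.W317.DR
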